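import Mathlib

/-! The Gelfand trick for a one-dimensional character of a subgroup. -/

namespace Pool.Agent.K1H2.MO

open Module

section trick

variable {G H V : Type*} [Group G] [Group H] [AddCommGroup V] [Module ℂ V]

/-- Linear functionals on which `H` (acting through `i`) acts by the character `ω`. -/
def Eqv (π : Representation ℂ G V) (i : H →* G) (ω : H →* ℂˣ) : Submodule ℂ (V →ₗ[ℂ] ℂ) where
  carrier := {ℓ | ∀ (h : H) (v : V), ℓ (π (i h) v) = (ω h : ℂ) * ℓ v}
  add_mem' := by
    intro a b ha hb h v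
    simp only [LinearMap.add_apply, ha h v, hb h v, mul_add]
  zero_mem' := by
    intro h v
    simp
  smul_mem' := by
    intro c a ha h v
    simp only [LinearMap.smul_apply, ha h v, smul_eq_mul]
    ring

theorem mem_Eqv {π : Representation ℂ G V} {i : H →* G} {ω : H →* ℂˣ} {ℓ : V →ₗ[ℂ] ℂ} :
    ℓ ∈ Eqv π i ω ↔ ∀ (h : H) (v : V), ℓ (π (i h) v) = (ω h : ℂ) * ℓ v := Iff.rfl

variable [Fintype H]

/-- The averaging projection. -/
noncomputable def prj (π : Representation ℂ G V) (i : H →* G) (ω : H →* ℂˣ) : V →ₗ[ℂ] V :=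
  (Fintype.card H : ℂ)⁻¹ • ∑ h : H, ((ω h)⁻¹ : ℂ) • π (i h)

variable (π : Representation ℂ G V) (i : H →* G) (ω : H →* ℂˣ)

theorem prj_apply (v : V) :
    prj π i ω v = (Fintype.card H : ℂ)⁻¹ • ∑ h : H, ((ω h)⁻¹ : ℂ) • π (i h) v := by
  simp [prj, LinearMap.smul_apply, LinearMap.sum_apply]

theorem prj_right (h : H) (v : V) : prj π i ω (π (i h) v) = (ω h : ℂ) • prj π i ω v := by
  have key : ∑ x : H, ((ω x)⁻¹ : ℂ) • π (i x) (π (i h) v)
      = (ω h : ℂ) • ∑ x : H, ((ω x)⁻¹ : ℂ) • π (i x) v := by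
    rw [Finset.smul_sum]
    refine Fintype.sum_equiv (Equiv.mulRight h) _ _ ?_
    intro x
    have h1 : (ω h : ℂ) ≠ 0 := (ω h).ne_zero
    have h2 : (ω x : ℂ) ≠ 0 := (ω x).ne_zero
    simp only [Equiv.coe_mulRight, map_mul, Units.val_mul, Module.End.mul_apply, smul_smul]
    congr 1
    field_simp
  rw [prj_apply, prj_apply, key, smul_comm]

theorem prj_left (h : H) (v : V) : π (i h) (prj π i ω v) = (ω h : ℂ) • prj π i ω v := by
  have key : ∑ x : H, π (i h) (((ω x)⁻¹ : ℂ) • π (i x) v)
      = (ω h : ℂ) • ∑ x : H, ((ω x)⁻¹ : ℂ) • π (i x) v := by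
    rw [Finset.smul_sum]
    refine Fintype.sum_equiv (Equiv.mulLeft h) _ _ ?_
    intro x
    have h1 : (ω h : ℂ) ≠ 0 := (ω h).ne_zero
    have h2 : (ω x : ℂ) ≠ 0 := (ω x).ne_zero
    simp only [Equiv.coe_mulLeft, map_mul, Units.val_mul, Module.End.mul_apply, smul_smul, map_smul]
    congr 1
    field_simp
  rw [prj_apply, map_smul, map_sum, key, smul_comm]

theorem prj_prj (v : V) : prj π i ω (prj π i ω v) = prj π i ω v := by
  conv_lhs => rw [prj_apply]
  have h0 : (Fintype.card H : ℂ) ≠ 0 := by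
    exact_mod_cast Fintype.card_ne_zero
  have : ∀ h : H, ((ω h)⁻¹ : ℂ) • π (i h) (prj π i ω v) = prj π i ω v := by
    intro h
    rw [prj_left, smul_smul, inv_mul_cancel₀ (ω h).ne_zero, one_smul]
  simp only [this, Finset.sum_const, Finset.card_univ, ← Nat.cast_smul_eq_nsmul ℂ, smul_smul]
  rw [inv_mul_cancel₀ h0, one_smul]

theorem fix_prj {ℓ : V →ₗ[ℂ] ℂ} (hℓ : ℓ ∈ Eqv π i ω) (v : V) : ℓ (prj π i ω v) = ℓ v := by
  have h0 : (Fintype.card H : ℂ) ≠ 0 := by
    exact_mod_cast Fintype.card_ne_zero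
  rw [prj_apply, map_smul, map_sum]
  have : ∀ h : H, ℓ (((ω h)⁻¹ : ℂ) • π (i h) v) = ℓ v := by
    intro h
    rw [map_smul, mem_Eqv.1 hℓ, smul_eq_mul, ← mul_assoc, inv_mul_cancel₀ (ω h).ne_zero, one_mul]
  simp only [this, Finset.sum_const, Finset.card_univ, nsmul_eq_mul, smul_eq_mul]
  rw [← mul_assoc, inv_mul_cancel₀ h0, one_mul]

/-- the compressed operator -/
noncomputable def cmp (g : G) (v : V) : V := prj π i ω (π g (prj π i ω v))

variable {π i ω}

theorem cmp_tau {τ : G → G}
    (hg : ∀ g, ∃ h k : H, τ g = i h * g * i k ∧ ω h * ω k = 1) (g : G) (v : V) :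
    cmp π i ω (τ g) v = cmp π i ω g v := by
  obtain ⟨h, k, e, e1⟩ := hg g
  unfold cmp
  rw [e]
  simp only [map_mul, Module.End.mul_apply]
  rw [prj_left, map_smul, map_smul, map_smul, prj_right, smul_smul, mul_comm]
  have : ((ω h : ℂˣ) : ℂ) * (ω k : ℂ) = 1 := by
    rw [← Units.val_mul, e1, Units.val_one]
  rw [this, one_smul]

theorem cmp_prj (g : G) (v : V) : prj π i ω (cmp π i ω g v) = cmp π i ω g v := by
  unfold cmp
  rw [prj_prj]

theorem cmp_prj' (g : G) (v : V) : cmp π i ω g (prj π i ω v) = cmp π i ω g v := by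
  unfold cmp
  rw [prj_prj]

/-- product of two compressed operators as an average -/
theorem cmp_cmp (g g' : G) (v : V) :
    cmp π i ω g (cmp π i ω g' v)
      = (Fintype.card H : ℂ)⁻¹ • ∑ h : H, ((ω h)⁻¹ : ℂ) • cmp π i ω (g * i h * g') v := by
  have e : cmp π i ω g (cmp π i ω g' v)
      = prj π i ω (π g (prj π i ω (π g' (prj π i ω v)))) := by
    unfold cmp
    rw [prj_prj]
  rw [e]
  conv_lhs => rw [prj_apply π i ω (π g' (prj π i ω v))]
  simp only [map_smul, map_sum, cmp, map_mul, Module.End.mul_apply]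

theorem cmp_comm {τ : G → G} (hτ : ∀ x y, τ (x * y) = τ y * τ x) {ρ : H → H}
    (hρ : Function.Injective ρ) (hi : ∀ h, i (ρ h) = τ (i h)) (hω : ∀ h, ω (ρ h) = ω h)
    (hg : ∀ g, ∃ h k : H, τ g = i h * g * i k ∧ ω h * ω k = 1) (g g' : G) (v : V) :
    cmp π i ω g (cmp π i ω g' v) = cmp π i ω g' (cmp π i ω g v) := by
  have hb : Function.Bijective ρ := Finite.injective_iff_bijective.1 hρ
  calc cmp π i ω g (cmp π i ω g' v)
      = (Fintype.card H : ℂ)⁻¹ • ∑ h : H, ((ω h)⁻¹ : ℂ) • cmp π i ω (g * i h * g') v :=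
        cmp_cmp g g' v
    _ = (Fintype.card H : ℂ)⁻¹ • ∑ h : H, ((ω h)⁻¹ : ℂ) • cmp π i ω (τ g' * i (ρ h) * τ g) v := by
        congr 1
        refine Finset.sum_congr rfl ?_
        intro h _
        rw [← cmp_tau hg (g * i h * g'), hτ, hτ, hi, mul_assoc]
    _ = (Fintype.card H : ℂ)⁻¹ • ∑ h : H, ((ω h)⁻¹ : ℂ) • cmp π i ω (τ g' * i h * τ g) v := by
        congr 1
        refine Fintype.sum_equiv (Equiv.ofBijective ρ hb) _ _ ?_
        intro h
        simp only [Equiv.ofBijective_apply, hω]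
    _ = cmp π i ω (τ g') (cmp π i ω (τ g) v) := (cmp_cmp _ _ _).symm
    _ = cmp π i ω g' (cmp π i ω g v) := by rw [cmp_tau hg, cmp_tau hg]

/-- **The Gelfand trick.** -/
theorem trick [FiniteDimensional ℂ V] (hirr : π.IsIrreducible) {τ : G → G}
    (hτ : ∀ x y, τ (x * y) = τ y * τ x) {ρ : H → H}
    (hρ : Function.Injective ρ) (hi : ∀ h, i (ρ h) = τ (i h)) (hω : ∀ h, ω (ρ h) = ω h)
    (hg : ∀ g, ∃ h k : H, τ g = i h * g * i k ∧ ω h * ω k = 1) :
    finrank ℂ (Eqv π i ω) ≤ 1 := by
  classical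
  -- span of an orbit
  have hspan : ∀ u : V, u ≠ 0 → Submodule.span ℂ (Set.range fun g : G => π g u) = ⊤ := by
    intro u hu
    let S : Subrepresentation π :=
      { toSubmodule := Submodule.span ℂ (Set.range fun g : G => π g u)
        apply_mem_toSubmodule := by
          intro g v hv
          induction hv using Submodule.span_induction with
          | mem x hx =>
            obtain ⟨y, rfl⟩ := hx
            refine Submodule.subset_span ⟨g * y, ?_⟩
            simp [map_mul]
          | zero => simp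
          | add x y _ _ hx hy => rw [map_add]; exact Submodule.add_mem _ hx hy
          | smul c x _ hx => rw [map_smul]; exact Submodule.smul_mem _ _ hx }
    have hS : S ≠ ⊥ := by
      intro h
      have h1 : u ∈ S := by
        change u ∈ Submodule.span ℂ (Set.range fun g : G => π g u)
        refine Submodule.subset_span ⟨1, ?_⟩
        simp
      rw [h] at h1
      exact hu h1
    have := (eq_bot_or_eq_top S).resolve_left hS
    have h2 : S.toSubmodule = (⊤ : Subrepresentation π).toSubmodule := by rw [this]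
    exact h2
  let U : Submodule ℂ V := LinearMap.range (prj π i ω)
  have memU : ∀ v, v ∈ U ↔ prj π i ω v = v := by
    intro v
    constructor
    · rintro ⟨w, rfl⟩
      exact prj_prj π i ω w
    · intro h
      exact ⟨v, h⟩
  -- `U` is spanned by the compressed orbit
  have hU : ∀ u : V, u ≠ 0 → prj π i ω u = u → ∀ w ∈ U,
      w ∈ Submodule.span ℂ (Set.range fun g : G => cmp π i ω g u) := by
    intro u hu hPu w hw
    have h1 : w ∈ Submodule.map (prj π i ω) (Submodule.span ℂ (Set.range fun g : G => π g u)) := by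
      rw [hspan u hu, Submodule.map_top]
      exact hw
    rw [Submodule.map_span, ← Set.range_comp] at h1
    refine Submodule.span_mono ?_ h1
    rintro _ ⟨g, rfl⟩
    refine ⟨g, ?_⟩
    simp only [cmp, Function.comp_apply, hPu]
  -- each compressed operator is a scalar on `U`
  have hscal : ∀ g : G, ∃ c : ℂ, ∀ w ∈ U, cmp π i ω g w = c • w := by
    intro g
    by_cases hb : U = ⊥
    · refine ⟨0, fun w hw => ?_⟩
      rw [hb, Submodule.mem_bot] at hw
      rw [hw]
      simp [cmp]
    · have : Nontrivial U := Submodule.nontrivial_iff_ne_bot.2 hb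
      let T : V →ₗ[ℂ] V := (prj π i ω) ∘ₗ (π g) ∘ₗ (prj π i ω)
      have hT : ∀ v, T v = cmp π i ω g v := fun v => rfl
      have hTU : ∀ v ∈ U, T v ∈ U := by
        intro v _
        rw [memU, hT, cmp_prj]
      obtain ⟨c, hc⟩ := Module.End.exists_eigenvalue (T.restrict hTU)
      obtain ⟨u, hu, hu0⟩ := hc.exists_hasEigenvector
      rw [Module.End.mem_eigenspace_iff] at hu
      have hu1 : T (u : V) = c • (u : V) := by
        have := congrArg Subtype.val hu
        simpa using this
      have hu2 : (u : V) ≠ 0 := by simpa using hu0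
      refine ⟨c, fun w hw => ?_⟩
      have hs := hU u hu2 ((memU _).1 u.2) w hw
      rw [← hT]
      have key : ∀ w ∈ Submodule.span ℂ (Set.range fun g : G => cmp π i ω g (u : V)),
          T w = c • w := by
        intro w hs
        induction hs using Submodule.span_induction with
        | mem x hx =>
          obtain ⟨y, rfl⟩ := hx
          change T (cmp π i ω y u) = c • cmp π i ω y u
          rw [hT, cmp_comm hτ hρ hi hω hg, ← hT (u : V), hu1]
          simp [cmp]
        | zero => simp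
        | add x y _ _ hx hy => rw [map_add, hx, hy, smul_add]
        | smul a x _ hx => rw [map_smul, hx, smul_comm]
      exact key w hs
  -- hence `U` is a line
  obtain ⟨v0, hv0⟩ : ∃ v0 : V, ∀ w ∈ U, w ∈ Submodule.span ℂ {v0} := by
    by_cases hb : U = ⊥
    · refine ⟨0, fun w hw => ?_⟩
      rw [hb, Submodule.mem_bot] at hw
      rw [hw]
      exact Submodule.zero_mem _
    · obtain ⟨u, huU, hu0⟩ := Submodule.exists_mem_ne_zero_of_ne_bot hb
      refine ⟨u, fun w hw => ?_⟩
      have hs := hU u hu0 ((memU _).1 huU) w hw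
      refine Submodule.span_le.2 ?_ hs
      rintro _ ⟨g, rfl⟩
      obtain ⟨c, hc⟩ := hscal g
      change cmp π i ω g u ∈ _
      rw [hc u huU]
      exact Submodule.smul_mem _ _ (Submodule.mem_span_singleton_self u)
  let ev : Eqv π i ω →ₗ[ℂ] ℂ :=
    { toFun := fun ℓ => ℓ.1 v0
      map_add' := fun a b => rfl
      map_smul' := fun a b => rfl }
  have hev : Function.Injective ev := by
    rw [injective_iff_map_eq_zero]
    intro ℓ hℓ
    apply Subtype.ext
    apply LinearMap.ext
    intro v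
    rw [← fix_prj π i ω ℓ.2 v]
    obtain ⟨c, hc⟩ := Submodule.mem_span_singleton.1 (hv0 (prj π i ω v) ⟨v, rfl⟩)
    have h0 : ℓ.1 v0 = 0 := hℓ
    rw [← hc, map_smul, h0]
    simp
  calc finrank ℂ (Eqv π i ω) ≤ finrank ℂ ℂ := LinearMap.finrank_le_finrank_of_injective hev
    _ = 1 := finrank_self ℂ

end trick

end Pool.Agent.K1H2.MO
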