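import Mathlib

/-! Semilinear maps over a quadratic extension of finite fields: a conjugacy criterion by counting. -/

namespace Pool.Agent.K1H2.MO

open Module

theorem mob_aux {L Z : Type*} [PartialOrder L] [Fintype L] [Fintype Z] (μ : Z → L) (K : L) :
    Nat.card {x // K ≤ μ x} = Nat.card {x // μ x = K}
        + (letI := Classical.dec;
          ∑ K' ∈ Finset.univ.filter (fun K' => K < K'), Nat.card {x // μ x = K'}) := by
  classical
  simp only [Nat.card_eq_fintype_card, Fintype.card_subtype]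
  rw [Finset.card_eq_sum_card_fiberwise (f := μ) (t := Finset.univ.filter (fun K' => K ≤ K'))]
  · have e1 : Finset.univ.filter (fun K' => K ≤ K')
        = insert K (Finset.univ.filter (fun K' => K < K')) := by
      ext K'
      simp only [Finset.mem_filter, Finset.mem_univ, true_and, Finset.mem_insert]
      constructor
      · intro h1
        rcases eq_or_lt_of_le h1 with h2 | h2
        · exact Or.inl h2.symm
        · exact Or.inr h2
      · rintro (h1 | h1)
        · exact h1 ▸ le_refl _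
        · exact h1.le
    rw [e1, Finset.sum_insert (by simp)]
    congr 1
    · congr 1
      ext x
      simp only [Finset.mem_filter, Finset.mem_univ, true_and]
      constructor
      · exact fun h => h.2
      · intro h; exact ⟨h ▸ le_refl _, h⟩
    · refine Finset.sum_congr ?_ ?_
      · ext K'; simp
      intro K' hK'
      congr 1
      ext x
      simp only [Finset.mem_filter, Finset.mem_univ, true_and] at hK' ⊢
      constructor
      · exact fun h => h.2
      · intro h; exact ⟨h ▸ hK'.le, h⟩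
  · intro x hx
    simpa using hx

/-- Möbius inversion for the fibres of maps to a finite poset. -/
theorem mob {L X Y : Type*} [PartialOrder L] [Finite L] [Finite X] [Finite Y]
    (κ : X → L) (κ' : Y → L)
    (h : ∀ K, Nat.card {x // K ≤ κ x} = Nat.card {y // K ≤ κ' y}) :
    ∀ K, Nat.card {x // κ x = K} = Nat.card {y // κ' y = K} := by
  classical
  have := Fintype.ofFinite L
  have := Fintype.ofFinite X
  have := Fintype.ofFinite Y
  intro K
  induction K using WellFoundedGT.induction with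
  | ind K ih =>
    have h1 := h K
    rw [mob_aux κ K, mob_aux κ' K] at h1
    have h2 := Finset.sum_congr (s₁ := Finset.univ.filter (fun K' => K < K')) rfl
      (fun K' hK' => ih K' (Finset.mem_filter.1 hK').2)
    omega

/-- Data of a quadratic extension with its conjugation. -/
structure QD (F E : Type*) [Field F] [Field E] [Algebra F E] where
  /-- the conjugation -/
  σ : E ≃ₐ[F] E
  /-- a generator -/
  θ : E
  /-- the trace of the generator -/
  t : F
  /-- the norm of the generator -/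
  n : F
  σσ : ∀ x, σ (σ x) = x
  ne : σ θ ≠ θ
  ht : algebraMap F E t = θ + σ θ
  hn : algebraMap F E n = θ * σ θ
  sp : ∀ e : E, ∃ a b : F, e = algebraMap F E a + algebraMap F E b * θ

section

variable {F E : Type*} [Field F] [Field E] [Algebra F E] (D : QD F E)
variable {W V : Type*} [AddCommGroup W] [Module F W] [Module E W] [IsScalarTower F E W]
variable [AddCommGroup V] [Module F V] [Module E V] [IsScalarTower F E V]

theorem QD.d_ne : D.θ - D.σ D.θ ≠ 0 := fun h => D.ne (sub_eq_zero.1 h).symm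

/-- a map that commutes with the generator is linear over the big field -/
theorem lin_of (f : W →ₗ[F] V) (h : ∀ x, f (D.θ • x) = D.θ • f x) (e : E) (x : W) :
    f (e • x) = e • f x := by
  obtain ⟨a, b, rfl⟩ := D.sp e
  rw [add_smul, mul_smul, map_add, algebraMap_smul, algebraMap_smul, map_smul, map_smul, h,
    add_smul, mul_smul, algebraMap_smul, algebraMap_smul]

theorem anti_of (f : W →ₗ[F] V) (h : ∀ x, f (D.θ • x) = D.σ D.θ • f x) (e : E) (x : W) :
    f (e • x) = D.σ e • f x := by
  obtain ⟨a, b, rfl⟩ := D.sp e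
  rw [map_add, map_mul, AlgEquiv.commutes, AlgEquiv.commutes]
  rw [add_smul, mul_smul, map_add, algebraMap_smul, algebraMap_smul, map_smul, map_smul, h,
    add_smul, mul_smul, algebraMap_smul, algebraMap_smul]

/-- the linear part -/
noncomputable def lpart (f : W →ₗ[F] V) : W →ₗ[F] V :=
  (D.θ - D.σ D.θ)⁻¹ • (f ∘ₗ (Algebra.lsmul F F W D.θ) - D.σ D.θ • f)

theorem lpart_apply (f : W →ₗ[F] V) (x : W) :
    lpart D f x = (D.θ - D.σ D.θ)⁻¹ • (f (D.θ • x) - D.σ D.θ • f x) := rfl

theorem f_sq (f : W →ₗ[F] V) (x : W) :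
    f (D.θ • D.θ • x) = (D.θ + D.σ D.θ) • f (D.θ • x) - (D.θ * D.σ D.θ) • f x := by
  have e : D.θ • D.θ • x = D.t • (D.θ • x) - D.n • x := by
    rw [← algebraMap_smul E D.t, ← algebraMap_smul E D.n, D.ht, D.hn]
    simp only [smul_smul, ← sub_smul]
    congr 1
    ring
  rw [e, map_sub, f.map_smul D.t, f.map_smul D.n, ← algebraMap_smul E D.t,
    ← algebraMap_smul E D.n, D.ht, D.hn]

theorem lpart_lin (f : W →ₗ[F] V) (e : E) (x : W) : lpart D f (e • x) = e • lpart D f x := by
  refine lin_of D _ ?_ e x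
  intro x
  rw [lpart_apply, lpart_apply, f_sq, smul_comm D.θ (D.θ - D.σ D.θ)⁻¹]
  congr 1
  rw [smul_sub, smul_smul, add_smul]
  abel

theorem apart_lin (f : W →ₗ[F] V) (e : E) (x : W) :
    (f - lpart D f) (e • x) = D.σ e • (f - lpart D f) x := by
  refine anti_of D _ ?_ e x
  intro x
  rw [LinearMap.sub_apply, LinearMap.sub_apply, lpart_lin, smul_sub]
  have h := D.d_ne
  have : f (D.θ • x) - D.σ D.θ • f x = (D.θ - D.σ D.θ) • lpart D f x := by
    rw [lpart_apply, smul_smul, mul_inv_cancel₀ h, one_smul]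
  rw [sub_smul] at this
  rw [sub_eq_sub_iff_sub_eq_sub, this]

omit [IsScalarTower F E W] [IsScalarTower F E V] in
/-- a map that is linear and semilinear is zero -/
theorem lin_anti_zero (f : W →ₗ[F] V) (h : ∀ (e : E) x, f (e • x) = e • f x)
    (h' : ∀ (e : E) x, f (e • x) = D.σ e • f x) : f = 0 := by
  ext x
  have h1 : (D.θ - D.σ D.θ) • f x = 0 := by
    rw [sub_smul, ← h, ← h', sub_self]
  exact (smul_eq_zero.1 h1).resolve_left D.d_ne

theorem lpart_comm (f : W →ₗ[F] V) (φ : W →ₗ[F] W) (ρ : V →ₗ[F] V)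
    (hφ : ∀ (e : E) x, φ (e • x) = D.σ e • φ x) (hρ : ∀ (e : E) x, ρ (e • x) = D.σ e • ρ x)
    (hf : ∀ x, f (φ x) = ρ (f x)) (x : W) : lpart D f (φ x) = ρ (lpart D f x) := by
  have h1 : D.θ • φ x = φ (D.σ D.θ • x) := by rw [hφ, D.σσ]
  have h2 : D.σ D.θ • x = D.t • x - D.θ • x := by
    rw [← algebraMap_smul E D.t, D.ht, ← sub_smul]
    congr 1; ring
  have h3 : f (D.σ D.θ • x) = (D.θ + D.σ D.θ) • f x - f (D.θ • x) := by
    rw [h2, map_sub, map_smul, ← algebraMap_smul E D.t, D.ht]
  rw [lpart_apply, lpart_apply, h1, hf, hf, hρ, h3]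
  have h4 : D.σ D.θ • ρ (f x) = ρ (D.θ • f x) := by rw [hρ]
  rw [h4, ← map_sub]
  have h5 : D.σ (D.θ - D.σ D.θ)⁻¹ = - (D.θ - D.σ D.θ)⁻¹ := by
    rw [map_inv₀, map_sub, D.σσ, ← neg_sub, inv_neg]
  rw [h5, neg_smul, ← smul_neg, ← map_neg]
  congr 2
  rw [add_smul]
  abel

end

section

variable {F E : Type*} [Field F] [Field E] [Algebra F E] (D : QD F E)
variable {W : Type*} [AddCommGroup W] [Module F W] [Module E W] [IsScalarTower F E W]

/-- the linear maps over the big field which intertwine `φ` and `ρ` -/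
def SS (E : Type*) [Field E] [Module E W] (φ ρ : W →ₗ[F] W) : Type _ :=
  {f : W →ₗ[F] W // (∀ (e : E) x, f (e • x) = e • f x) ∧ ∀ x, f (φ x) = ρ (f x)}

/-- their kernels -/
def kk {φ ρ : W →ₗ[F] W} (f : SS E φ ρ) : Submodule E W where
  carrier := {x | f.1 x = 0}
  add_mem' := by
    intro a b ha hb
    simp only [Set.mem_ofPred_eq] at *
    rw [map_add, ha, hb, add_zero]
  zero_mem' := by simp
  smul_mem' := by
    intro c x hx
    simp only [Set.mem_ofPred_eq] at *
    rw [f.2.1, hx, smul_zero]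

/-- the linear maps over the small field which intertwine `φ` and `ρ` and kill `K` -/
def TT (φ ρ : W →ₗ[F] W) (K : Submodule E W) : Type _ :=
  {f : W →ₗ[F] W // (∀ x, f (φ x) = ρ (f x)) ∧ ∀ x ∈ K, f x = 0}

/-- the comparison map -/
def cmb {φ ρ : W →ₗ[F] W} (K : Submodule E W)
    (p : {f : SS E φ ρ // K ≤ kk f} × {f : SS E φ ρ // K ≤ kk f}) : TT φ ρ K :=
  ⟨p.1.1.1 + ρ ∘ₗ p.2.1.1, by
    constructor
    · intro x
      simp only [LinearMap.add_apply, LinearMap.comp_apply, p.1.1.2.2, p.2.1.2.2, map_add]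
    · intro x hx
      have h1 : p.1.1.1 x = 0 := p.1.2 hx
      have h2 : p.2.1.1 x = 0 := p.2.2 hx
      simp only [LinearMap.add_apply, LinearMap.comp_apply, h1, h2, map_zero, add_zero]⟩

theorem cmb_bij {φ ρ : W →ₗ[F] W} (hφ : ∀ (e : E) x, φ (e • x) = D.σ e • φ x)
    (hρ : ∀ (e : E) x, ρ (e • x) = D.σ e • ρ x) (hb : Function.Bijective ρ)
    (K : Submodule E W) : Function.Bijective (cmb (φ := φ) (ρ := ρ) K) := by
  constructor
  · rintro ⟨⟨f, hf⟩, ⟨g, hg⟩⟩ ⟨⟨f', hf'⟩, ⟨g', hg'⟩⟩ h
    have h1 : f.1 + ρ ∘ₗ g.1 = f'.1 + ρ ∘ₗ g'.1 := congrArg Subtype.val h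
    have h2 : f.1 - f'.1 = 0 := by
      refine lin_anti_zero D _ ?_ ?_
      · intro e x
        rw [LinearMap.sub_apply, LinearMap.sub_apply, f.2.1, f'.2.1, smul_sub]
      · have h3 : f.1 - f'.1 = ρ ∘ₗ (g'.1 - g.1) := by
          rw [LinearMap.comp_sub, sub_eq_sub_iff_add_eq_add, h1, add_comm]
        intro e x
        rw [h3, LinearMap.comp_apply, LinearMap.comp_apply, LinearMap.sub_apply,
          LinearMap.sub_apply, g.2.1, g'.2.1, ← smul_sub, hρ]
    have h3 : f.1 = f'.1 := sub_eq_zero.1 h2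
    have h4 : g.1 = g'.1 := by
      rw [h3, add_right_inj] at h1
      ext x
      exact hb.1 (LinearMap.congr_fun h1 x)
    have h5 : f = f' := Subtype.ext h3
    have h6 : g = g' := Subtype.ext h4
    subst h5 h6
    rfl
  · rintro ⟨f, hf, hK⟩
    let r : W ≃ₗ[F] W := LinearEquiv.ofBijective ρ hb
    have hr : ∀ x, ρ (r.symm x) = x := fun x => r.apply_symm_apply x
    have hr' : ∀ x, r.symm (ρ x) = x := fun x => r.symm_apply_apply x
    have hc := lpart_comm D f φ ρ hφ hρ hf
    have hz : ∀ x ∈ K, lpart D f x = 0 := by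
      intro x hx
      rw [lpart_apply, hK x hx, hK _ (K.smul_mem _ hx), smul_zero, sub_zero, smul_zero]
    refine ⟨(⟨⟨lpart D f, lpart_lin D f, hc⟩, ?_⟩,
      ⟨⟨r.symm.toLinearMap ∘ₗ (f - lpart D f), ?_, ?_⟩, ?_⟩), ?_⟩
    · intro x hx
      exact hz x hx
    · intro e x
      apply hb.1
      rw [LinearMap.comp_apply, LinearMap.comp_apply, LinearEquiv.coe_coe, hr, hρ, hr, apart_lin]
    · intro x
      rw [LinearMap.comp_apply, LinearMap.comp_apply, LinearEquiv.coe_coe, hr]
      apply hb.1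
      rw [hr, LinearMap.sub_apply, LinearMap.sub_apply, hf, hc, map_sub]
    · intro x hx
      change r.symm ((f - lpart D f) x) = 0
      rw [LinearMap.sub_apply, hK x hx, hz x hx, sub_zero, map_zero]
    · apply Subtype.ext
      ext x
      change lpart D f x + ρ (r.symm ((f - lpart D f) x)) = f x
      rw [hr, LinearMap.sub_apply]
      abel

/-- **Conjugacy of semilinear maps**: over finite fields, bijective semilinear maps which are
conjugate over the small field are conjugate over the big field. -/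
theorem lov [Finite W] {φ ψ : W →ₗ[F] W} (hφ : ∀ (e : E) x, φ (e • x) = D.σ e • φ x)
    (hψ : ∀ (e : E) x, ψ (e • x) = D.σ e • ψ x) (hφb : Function.Bijective φ)
    (hψb : Function.Bijective ψ) (u : W ≃ₗ[F] W) (hu : ∀ x, u (φ x) = ψ (u x)) :
    ∃ h : W ≃ₗ[E] W, ∀ x, h (φ x) = ψ (h x) := by
  classical
  have fin1 : Finite (W →ₗ[F] W) := Finite.of_injective (fun f : W →ₗ[F] W => (f : W → W))
    DFunLike.coe_injective
  have finL : Finite (Submodule E W) :=
    Finite.of_injective (fun K : Submodule E W => (K : Set W)) SetLike.coe_injective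
  have finS : ∀ ρ : W →ₗ[F] W, Finite (SS E φ ρ) := fun ρ => Subtype.finite
  have key : ∀ K : Submodule E W,
      Nat.card {f : SS E φ φ // K ≤ kk f} = Nat.card {f : SS E φ ψ // K ≤ kk f} := by
    intro K
    have h1 : Nat.card {f : SS E φ φ // K ≤ kk f} * Nat.card {f : SS E φ φ // K ≤ kk f}
        = Nat.card (TT φ φ K) := by
      rw [← Nat.card_prod]
      exact Nat.card_congr (Equiv.ofBijective _ (cmb_bij D hφ hφ hφb K))
    have h2 : Nat.card {f : SS E φ ψ // K ≤ kk f} * Nat.card {f : SS E φ ψ // K ≤ kk f}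
        = Nat.card (TT φ ψ K) := by
      rw [← Nat.card_prod]
      exact Nat.card_congr (Equiv.ofBijective _ (cmb_bij D hφ hψ hψb K))
    have hu' : ∀ x, u.symm (ψ x) = φ (u.symm x) := by
      intro x
      apply u.injective
      rw [u.apply_symm_apply, hu, u.apply_symm_apply]
    have h3 : Nat.card (TT φ φ K) = Nat.card (TT φ ψ K) := by
      refine Nat.card_congr
        { toFun := fun f => ⟨u.toLinearMap ∘ₗ f.1, ?_, ?_⟩
          invFun := fun f => ⟨u.symm.toLinearMap ∘ₗ f.1, ?_, ?_⟩
          left_inv := ?_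
          right_inv := ?_ }
      · intro x
        change u (f.1 (φ x)) = ψ (u (f.1 x))
        rw [f.2.1, hu]
      · intro x hx
        change u (f.1 x) = 0
        rw [f.2.2 x hx, map_zero]
      · intro x
        change u.symm (f.1 (φ x)) = φ (u.symm (f.1 x))
        rw [f.2.1, hu']
      · intro x hx
        change u.symm (f.1 x) = 0
        rw [f.2.2 x hx, map_zero]
      · intro f
        apply Subtype.ext
        ext x
        change u.symm (u (f.1 x)) = f.1 x
        rw [u.symm_apply_apply]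
      · intro f
        apply Subtype.ext
        ext x
        change u (u.symm (f.1 x)) = f.1 x
        rw [u.apply_symm_apply]
    have h4 : Nat.card {f : SS E φ φ // K ≤ kk f} * Nat.card {f : SS E φ φ // K ≤ kk f}
        = Nat.card {f : SS E φ ψ // K ≤ kk f} * Nat.card {f : SS E φ ψ // K ≤ kk f} := by
      rw [h1, h2, h3]
    exact Nat.mul_self_inj.1 h4
  have := finS φ
  have := finS ψ
  have hm := mob (kk (E := E) (φ := φ) (ρ := φ)) (kk (E := E) (φ := φ) (ρ := ψ)) key ⊥
  let i0 : SS E φ φ := ⟨LinearMap.id, fun _ _ => rfl, fun _ => rfl⟩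
  have hi0 : kk i0 = ⊥ := by
    rw [eq_bot_iff]
    intro x hx
    exact hx
  have hpos : 0 < Nat.card {f : SS E φ φ // kk f = ⊥} := by
    rw [Nat.card_pos_iff]
    exact ⟨⟨⟨i0, hi0⟩⟩, inferInstance⟩
  rw [hm, Nat.card_pos_iff] at hpos
  obtain ⟨⟨f, hf⟩⟩ := hpos.1
  let f' : W →ₗ[E] W :=
    { toFun := f.1
      map_add' := fun x y => map_add _ _ _
      map_smul' := fun e x => f.2.1 e x }
  have hinj : Function.Injective f' := by
    rw [injective_iff_map_eq_zero]
    intro x hx
    have : x ∈ kk f := hx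
    rw [hf] at this
    simpa using this
  exact ⟨LinearEquiv.ofBijective f' (Finite.injective_iff_bijective.1 hinj), f.2.2⟩

end

end Pool.Agent.K1H2.MO
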