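import Mathlib

/-! An endomorphism of a finite-dimensional space is self-adjoint for a nondegenerate form. -/

namespace Pool.Agent.K1H2.MO

open Module Polynomial

section cyc

variable {F : Type*} [Field F]

theorem cyc (q : F[X]) (hq : q ≠ 0) :
    ∃ B : (F[X] ⧸ (Submodule.span F[X] {q})) →ₗ[F] (F[X] ⧸ (Submodule.span F[X] {q})) →ₗ[F] F,
      (∀ a b, B ((X : F[X]) • a) b = B a ((X : F[X]) • b)) ∧ ∀ a, (∀ b, B a b = 0) → a = 0 := by
  classical
  set I : Ideal F[X] := Submodule.span F[X] {q} with hI
  -- monic generator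
  set q' : F[X] := q * C (q.leadingCoeff⁻¹) with hq'
  have hm : q'.Monic := monic_mul_leadingCoeff_inv hq
  have hI' : ∀ p : F[X], p ∈ I ↔ q' ∣ p := by
    intro p
    rw [hI, Submodule.mem_span_singleton]
    have hu : IsUnit (C (q.leadingCoeff⁻¹) : F[X]) := by
      rw [isUnit_C]
      exact (inv_ne_zero (leadingCoeff_ne_zero.2 hq)).isUnit
    constructor
    · rintro ⟨a, rfl⟩
      rw [hq', smul_eq_mul, IsUnit.mul_right_dvd hu]
      exact dvd_mul_left _ _
    · intro h
      rw [hq', IsUnit.mul_right_dvd hu] at h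
      obtain ⟨a, rfl⟩ := h
      exact ⟨a, by rw [smul_eq_mul, mul_comm]⟩
  let l0 : F[X] →ₗ[F] F := (lcoeff F (q'.natDegree - 1)) ∘ₗ (modByMonicHom q')
  have hl0 : ∀ p : F[X], l0 p = (p %ₘ q').coeff (q'.natDegree - 1) := fun p => rfl
  have hker : I.restrictScalars F ≤ LinearMap.ker l0 := by
    intro p hp
    rw [LinearMap.mem_ker, hl0]
    have : q' ∣ p := (hI' p).1 hp
    rw [(modByMonic_eq_zero_iff_dvd hm).2 this, coeff_zero]
  let l : (F[X] ⧸ I) →ₗ[F] F :=
    ((I.restrictScalars F).liftQ l0 hker) ∘ₗ (Submodule.Quotient.restrictScalarsEquiv F I).symm.toLinearMap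
  have hl : ∀ p : F[X], l (Submodule.Quotient.mk p) = l0 p := by
    intro p
    rfl
  let B : (F[X] ⧸ I) →ₗ[F] (F[X] ⧸ I) →ₗ[F] F :=
    LinearMap.mk₂ F (fun a b => l (a * b))
      (fun a b c => by simp only [add_mul, map_add])
      (fun c a b => by simp only [smul_mul_assoc, map_smul])
      (fun a b c => by simp only [mul_add, map_add])
      (fun c a b => by simp only [mul_smul_comm, map_smul])
  refine ⟨B, ?_, ?_⟩
  · intro a b
    change l (((X : F[X]) • a) * b) = l (a * ((X : F[X]) • b))
    rw [smul_mul_assoc, mul_smul_comm]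
  · intro a ha
    obtain ⟨p, rfl⟩ := Submodule.Quotient.mk_surjective I a
    have ha' : ∀ r : F[X], l0 (p * r) = 0 := by
      intro r
      rw [← hl]
      exact ha (Submodule.Quotient.mk r)
    rw [Submodule.Quotient.mk_eq_zero, hI', ← modByMonic_eq_zero_iff_dvd hm]
    by_contra hne
    set s := p %ₘ q' with hs
    have hdeg : s.natDegree < q'.natDegree := by
      apply natDegree_modByMonic_lt _ hm
      intro h1
      apply hne
      rw [hs, h1, modByMonic_one]
    have h1 : (p * X ^ (q'.natDegree - 1 - s.natDegree)) %ₘ q'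
        = s * X ^ (q'.natDegree - 1 - s.natDegree) := by
      have e1 : p * X ^ (q'.natDegree - 1 - s.natDegree)
          = s * X ^ (q'.natDegree - 1 - s.natDegree)
            + q' * ((p /ₘ q') * X ^ (q'.natDegree - 1 - s.natDegree)) := by
        conv_lhs => rw [← modByMonic_add_div p q']
        rw [hs]
        ring
      rw [e1, add_modByMonic, (modByMonic_eq_zero_iff_dvd hm).2 (dvd_mul_right _ _), add_zero,
        (modByMonic_eq_self_iff hm)]
      apply degree_lt_degree
      rw [natDegree_mul_X_pow _ hne]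
      omega
    have h2 := ha' (X ^ (q'.natDegree - 1 - s.natDegree))
    rw [hl0, h1] at h2
    have h3 : q'.natDegree - 1 = s.natDegree + (q'.natDegree - 1 - s.natDegree) := by omega
    rw [h3, show s.natDegree + (q'.natDegree - 1 - s.natDegree) - s.natDegree
      = (q'.natDegree - 1 - s.natDegree) by omega] at h2
    rw [coeff_mul_X_pow] at h2
    exact hne (leadingCoeff_eq_zero.1 h2)

/-- **Self-adjointness**: every endomorphism is self-adjoint for some nondegenerate form. -/
theorem self_adj {W : Type*} [AddCommGroup W] [Module F W] [FiniteDimensional F W]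
    (f : W →ₗ[F] W) :
    ∃ β : W →ₗ[F] W →ₗ[F] F, Function.Injective β ∧ ∀ x y, β (f x) y = β x (f y) := by
  classical
  have htor : Module.IsTorsion F[X] (AEval' f) := Module.AEval.isTorsion_of_finiteDimensional F W f
  obtain ⟨ι, _, p, hp, e, ⟨E⟩⟩ := Module.equiv_directSum_of_isTorsion htor
  have hq : ∀ i, p i ^ e i ≠ 0 := fun i => pow_ne_zero _ (hp i).ne_zero
  choose B hB1 hB2 using fun i => cyc (p i ^ e i) (hq i)
  -- coordinates
  let c : ∀ i, W →ₗ[F] (F[X] ⧸ (Submodule.span F[X] {p i ^ e i})) := fun i =>
    { toFun := fun x => (E (AEval'.of f x)) i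
      map_add' := fun x y => by rw [map_add, map_add]; rfl
      map_smul' := fun a x => by
        rw [map_smul, RingHom.id_apply]
        have h1 : a • (AEval'.of f x) = (C a : F[X]) • (AEval'.of f x) := by
          rw [AEval.C_smul]
        rw [h1, map_smul]
        change ((C a : F[X]) • (E (AEval'.of f x)) i) = _
        have h2 : ∀ z : F[X] ⧸ (Submodule.span F[X] {p i ^ e i}), (C a : F[X]) • z = a • z := by
          intro z
          rw [← algebraMap_eq, algebraMap_smul]
        exact h2 _ }
  have hc : ∀ i x, c i (f x) = (X : F[X]) • c i x := by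
    intro i x
    change (E (AEval'.of f (f x))) i = (X : F[X]) • (E (AEval'.of f x)) i
    rw [← AEval'.X_smul_of, map_smul]
    rfl
  let β : W →ₗ[F] W →ₗ[F] F := ∑ i, (B i).compl₁₂ (c i) (c i)
  have hβ : ∀ x y, β x y = ∑ i, B i (c i x) (c i y) := by
    intro x y
    simp [β, LinearMap.sum_apply, LinearMap.compl₁₂_apply]
  refine ⟨β, ?_, ?_⟩
  · rw [injective_iff_map_eq_zero]
    intro x hx
    have hz : ∀ i, c i x = 0 := by
      intro i
      apply hB2 i
      intro b
      obtain ⟨y, hy⟩ := (E.surjective.comp (AEval'.of f).surjective)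
        (DirectSum.lof F[X] ι (fun i => F[X] ⧸ (Submodule.span F[X] {p i ^ e i})) i b)
      have h1 : ∀ j, c j y = if h : j = i then h ▸ b else 0 := by
        intro j
        have : c j y = (DirectSum.lof F[X] ι
          (fun i => F[X] ⧸ (Submodule.span F[X] {p i ^ e i})) i b) j := by
          rw [← hy]; rfl
        rw [this]
        split_ifs with h
        · subst h
          exact DirectSum.lof_apply _ _ _
        · exact DFinsupp.single_eq_of_ne h
      have h2 : β x y = 0 := by rw [hx]; rfl
      rw [hβ, Finset.sum_eq_single i] at h2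
      · rw [h1 i] at h2
        simpa using h2
      · intro j _ hj
        rw [h1 j, dif_neg hj, map_zero]
      · intro h
        exact absurd (Finset.mem_univ _) h
    have h3 : E (AEval'.of f x) = 0 := by
      apply DFinsupp.ext
      intro i
      exact hz i
    have h4 := E.injective (h3.trans (map_zero E).symm)
    exact (AEval'.of f).injective (h4.trans (map_zero _).symm)
  · intro x y
    rw [hβ, hβ]
    refine Finset.sum_congr rfl fun i _ => ?_
    rw [hc, hc, hB1]

end cyc

end Pool.Agent.K1H2.MO
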