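import Mathlib
import Pool.Agent.K1H2.MO.Lov
import Pool.Agent.K1H2.MO.ST

/-! Pairs of matrices over a quadratic extension of finite fields. -/

set_option linter.unusedSectionVars false
set_option linter.unusedSimpArgs false

namespace Pool.Agent.K1H2.MO

open Module Matrix

section

variable {F E : Type*} [Field F] [Field E] [Algebra F E] (D : QD F E)
variable {m l : Type*} [Fintype m] [DecidableEq m] [Fintype l] [DecidableEq l]

/-- The pair `(a, b)` is equivalent to its adjoint, with determinants of product one. -/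
def Good (a b : Matrix m m E) : Prop :=
  ∃ h k : Matrix m m E, h.det * k.det = 1 ∧ aᵀ = h * a * k ∧
    (b.map D.σ)ᵀ = h * b * k.map D.σ

theorem map_mul' (p q : Matrix m m E) : (p * q).map D.σ = p.map D.σ * q.map D.σ := by
  ext i j
  simp [Matrix.mul_apply, Matrix.map_apply, map_sum]

theorem map_one' : (1 : Matrix m m E).map D.σ = 1 := by
  ext i j
  by_cases h : i = j <;> simp [Matrix.map_apply, Matrix.one_apply, h]

theorem map_map' (p : Matrix m m E) : (p.map D.σ).map D.σ = p := by
  ext i j
  simp [Matrix.map_apply, D.σσ]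

theorem Good.equiv {a b : Matrix m m E} (h : Good D a b) {p p' q q' : Matrix m m E}
    (hp : p' * p = 1) (hq : q * q' = 1) : Good D (p * a * q) (p * b * q.map D.σ) := by
  obtain ⟨h, k, hd, ha, hb⟩ := h
  refine ⟨qᵀ * h * p', q' * k * pᵀ, ?_, ?_, ?_⟩
  · have h1 : p'.det * p.det = 1 := by rw [← det_mul, hp, det_one]
    have h2 : q.det * q'.det = 1 := by rw [← det_mul, hq, det_one]
    simp only [det_mul, det_transpose]
    calc q.det * h.det * p'.det * (q'.det * k.det * p.det)
        = (q.det * q'.det) * (p'.det * p.det) * (h.det * k.det) := by ring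
      _ = 1 := by rw [h1, h2, hd]; ring
  · rw [transpose_mul, transpose_mul, ha]
    calc qᵀ * (h * a * k * pᵀ) = qᵀ * h * 1 * a * 1 * k * pᵀ := by
          simp only [Matrix.mul_assoc, Matrix.mul_one, Matrix.one_mul]
      _ = qᵀ * h * (p' * p) * a * (q * q') * k * pᵀ := by rw [hp, hq]
      _ = _ := by simp only [Matrix.mul_assoc]
  · have hq2 : q.map D.σ * q'.map D.σ = 1 := by rw [← map_mul', hq, map_one']
    have e1 : (p * b * q.map D.σ).map D.σ = p.map D.σ * b.map D.σ * q := by
      rw [map_mul', map_mul', map_map']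
    rw [e1, transpose_mul, transpose_mul, hb, map_mul', map_mul', ← transpose_map]
    calc qᵀ * (h * b * k.map D.σ * pᵀ.map D.σ)
        = qᵀ * h * 1 * b * 1 * k.map D.σ * pᵀ.map D.σ := by
          simp only [Matrix.mul_assoc, Matrix.mul_one, Matrix.one_mul]
      _ = qᵀ * h * (p' * p) * b * (q.map D.σ * q'.map D.σ) * k.map D.σ * pᵀ.map D.σ := by
          rw [hp, hq2]
      _ = _ := by simp only [Matrix.mul_assoc]

theorem Good.block {a b : Matrix m m E} {a' b' : Matrix l l E} (h : Good D a b)
    (h' : Good D a' b') : Good D (fromBlocks a 0 0 a') (fromBlocks b 0 0 b') := by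
  obtain ⟨h, k, hd, ha, hb⟩ := h
  obtain ⟨h', k', hd', ha', hb'⟩ := h'
  refine ⟨fromBlocks h 0 0 h', fromBlocks k 0 0 k', ?_, ?_, ?_⟩
  · rw [det_fromBlocks_zero₁₂, det_fromBlocks_zero₁₂]
    calc h.det * h'.det * (k.det * k'.det) = (h.det * k.det) * (h'.det * k'.det) := by ring
      _ = 1 := by rw [hd, hd', one_mul]
  · rw [fromBlocks_transpose, ha, ha', fromBlocks_multiply, fromBlocks_multiply]
    simp
  · rw [fromBlocks_map, fromBlocks_transpose, hb, hb', fromBlocks_map, fromBlocks_multiply,
      fromBlocks_multiply]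
    congr 1 <;> ext i j <;> simp [Matrix.mul_apply]

theorem Good.reindex (e : m ≃ l) {a b : Matrix m m E} (h : Good D a b) :
    Good D (a.submatrix e.symm e.symm) (b.submatrix e.symm e.symm) := by
  obtain ⟨h, k, hd, ha, hb⟩ := h
  refine ⟨h.submatrix e.symm e.symm, k.submatrix e.symm e.symm, ?_, ?_, ?_⟩
  · rw [det_submatrix_equiv_self, det_submatrix_equiv_self, hd]
  · rw [transpose_submatrix, ha, submatrix_mul_equiv, submatrix_mul_equiv]
  · rw [← submatrix_map, transpose_submatrix, hb, ← submatrix_map, submatrix_mul_equiv,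
      submatrix_mul_equiv]

/-- the shift matrix -/
def shf (E : Type*) [Field E] (k : ℕ) : Matrix (Fin k) (Fin k) E :=
  Matrix.of fun i j => if (i : ℕ) = j + 1 then 1 else 0

theorem shf_apply (k : ℕ) (i j : Fin k) : shf E k i j = if (i : ℕ) = j + 1 then 1 else 0 := rfl

theorem shf_rev (k : ℕ) : (shf E k)ᵀ = (shf E k).submatrix Fin.rev Fin.rev := by
  ext i j
  rw [transpose_apply, submatrix_apply, shf_apply, shf_apply]
  have h1 := i.2
  have h2 := j.2
  congr 1
  rw [Fin.val_rev, Fin.val_rev]
  apply propext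
  constructor <;> intro h <;> omega

theorem good_shf (k : ℕ) (D : QD F E) :
    Good D (1 : Matrix (Fin k) (Fin k) E) (shf E k) ∧ Good D (shf E k) 1 := by
  let P : Matrix (Fin k) (Fin k) E := (1 : Matrix (Fin k) (Fin k) E).submatrix Fin.revPerm id
  have hP1 : P * P = 1 := by
    have : (P * P) = ((1 : Matrix (Fin k) (Fin k) E).submatrix Fin.revPerm id) *
      ((1 : Matrix (Fin k) (Fin k) E).submatrix id Fin.revPerm) := by
      congr 1
      ext i j
      simp only [P, submatrix_apply, one_apply, id]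
      congr 1
      apply propext
      constructor
      · rintro h; rw [← h]; simp
      · rintro h; rw [h]; simp
    rw [this, ← submatrix_mul _ _ _ _ _ Function.bijective_id, Matrix.one_mul,
      submatrix_one_equiv]
  have hd : P.det * P.det = 1 := by rw [← det_mul, hP1, det_one]
  have hPN : P * shf E k * P = (shf E k).submatrix Fin.rev Fin.rev := by
    ext i j
    simp only [P, Matrix.mul_apply, submatrix_apply, one_apply, id, Fin.revPerm_apply]
    simp only [ite_mul, one_mul, zero_mul, Finset.sum_ite_eq, Finset.mem_univ, if_true]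
    rw [Finset.sum_eq_single (Fin.rev j)]
    · simp
    · intro x _ hx
      rw [if_neg, mul_zero]
      intro h
      exact hx (by rw [← h]; simp)
    · intro h; exact absurd (Finset.mem_univ _) h
  have hm : ∀ (x : Matrix (Fin k) (Fin k) E), (∀ i j, x i j = 0 ∨ x i j = 1) →
      x.map D.σ = x := by
    intro x hx
    ext i j
    rcases hx i j with h | h <;> simp [Matrix.map_apply, h]
  have hPm : P.map D.σ = P := by
    apply hm
    intro i j
    simp only [P, submatrix_apply, one_apply, id]
    split_ifs <;> simp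
  have hNm : (shf E k).map D.σ = shf E k := by
    apply hm
    intro i j
    rw [shf_apply]
    split_ifs <;> simp
  constructor
  · refine ⟨P, P, hd, ?_, ?_⟩
    · rw [transpose_one, Matrix.mul_one, hP1]
    · rw [hNm, hPm, hPN, shf_rev]
  · refine ⟨P, P, hd, ?_, ?_⟩
    · rw [hPN, shf_rev]
    · rw [map_one', transpose_one, hPm, Matrix.mul_one, hP1]

/-- the semilinear map of a matrix -/
def sl (b : Matrix m m E) : (m → E) →ₗ[F] (m → E) where
  toFun x := b *ᵥ (fun i => D.σ (x i))
  map_add' x y := by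
    have : (fun i => D.σ ((x + y) i)) = (fun i => D.σ (x i)) + (fun i => D.σ (y i)) := by
      ext i; simp
    rw [this, mulVec_add]
  map_smul' c x := by
    have : (fun i => D.σ ((c • x) i)) = c • (fun i => D.σ (x i)) := by
      ext i; simp
    rw [this, mulVec_smul, RingHom.id_apply]

theorem sl_apply (b : Matrix m m E) (x : m → E) : sl D b x = b *ᵥ (fun i => D.σ (x i)) := rfl

theorem sl_semi (b : Matrix m m E) (e : E) (x : m → E) :
    sl D b (e • x) = D.σ e • sl D b x := by
  have : (fun i => D.σ ((e • x) i)) = D.σ e • (fun i => D.σ (x i)) := by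
    ext i; simp
  rw [sl_apply, this, mulVec_smul, sl_apply]

theorem sl_bij (b : Matrix m m E) (hb : IsUnit b.det) : Function.Bijective (sl D b) := by
  constructor
  · intro x y h
    have h1 : b⁻¹ *ᵥ (sl D b x) = b⁻¹ *ᵥ (sl D b y) := by rw [h]
    rw [sl_apply, sl_apply, mulVec_mulVec, mulVec_mulVec, nonsing_inv_mul _ hb, one_mulVec,
      one_mulVec] at h1
    funext i
    exact D.σ.injective (congrFun h1 i)
  · intro y
    refine ⟨fun i => D.σ ((b⁻¹ *ᵥ y) i), ?_⟩
    rw [sl_apply]
    have : (fun i => D.σ (D.σ ((b⁻¹ *ᵥ y) i))) = b⁻¹ *ᵥ y := by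
      ext i; rw [D.σσ]
    rw [this, mulVec_mulVec, mul_nonsing_inv _ hb, one_mulVec]

/-- the trace form -/
noncomputable def tf (F : Type*) {E m : Type*} [Field F] [Field E] [Algebra F E] [Fintype m] :
    (m → E) →ₗ[F] (m → E) →ₗ[F] F :=
  LinearMap.mk₂ F (fun x y => Algebra.trace F E (x ⬝ᵥ y))
    (fun x y z => by rw [add_dotProduct, map_add])
    (fun c x y => by rw [smul_dotProduct, map_smul])
    (fun x y z => by rw [dotProduct_add, map_add])
    (fun c x y => by rw [dotProduct_smul, map_smul])

theorem tf_apply (x y : m → E) : tf F x y = Algebra.trace F E (x ⬝ᵥ y) := rfl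

theorem tf_inj [FiniteDimensional F E] [Algebra.IsSeparable F E] :
    Function.Injective (tf F : (m → E) →ₗ[F] (m → E) →ₗ[F] F) := by
  rw [injective_iff_map_eq_zero]
  intro x hx
  funext i
  have h := (traceForm_nondegenerate F E).1 (x i)
  apply h
  intro z
  have h1 : tf F x (Pi.single i z) = 0 := by rw [hx]; rfl
  rw [tf_apply, dotProduct_single] at h1
  exact h1

theorem tf_symm (x y : m → E) : tf F x y = tf F y x := by
  rw [tf_apply, tf_apply, dotProduct_comm]

theorem tf_sl (b : Matrix m m E) (x y : m → E) :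
    tf F (sl D ((b.map D.σ)ᵀ) x) y = tf F x (sl D b y) := by
  rw [tf_apply, tf_apply, sl_apply, sl_apply]
  rw [← Algebra.trace_eq_of_algEquiv D.σ (x ⬝ᵥ _)]
  congr 1
  rw [dotProduct_comm, dotProduct_mulVec, vecMul_transpose, dotProduct_comm]
  simp only [dotProduct, mulVec, map_sum, map_mul, Matrix.map_apply, D.σσ]

theorem good_one [Finite E] [FiniteDimensional F E] [Algebra.IsSeparable F E]
    (b : Matrix m m E) (hb : IsUnit b.det) : Good D 1 b := by
  have hb' : IsUnit ((b.map D.σ)ᵀ).det := by
    rw [det_transpose]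
    have : (b.map D.σ).det = D.σ b.det := by
      have := RingHom.map_det (D.σ : E →+* E) b
      exact this.symm
    rw [this]
    exact hb.map D.σ
  obtain ⟨β, hβ, hβ'⟩ := self_adj (sl D b)
  have hfin : finrank F (m → E) = finrank F (Module.Dual F (m → E)) :=
    (Subspace.dual_finrank_eq (K := F) (V := m → E)).symm
  let B : (m → E) ≃ₗ[F] Module.Dual F (m → E) := LinearEquiv.ofInjectiveOfFinrankEq β hβ hfin
  let T : (m → E) ≃ₗ[F] Module.Dual F (m → E) := LinearEquiv.ofInjectiveOfFinrankEq (tf F) tf_inj hfin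
  let u := B ≪≫ₗ T.symm
  have hu0 : ∀ x, tf F (u x) = β x := by
    intro x
    exact T.apply_symm_apply (B x)
  have hu : ∀ x, u (sl D b x) = sl D ((b.map D.σ)ᵀ) (u x) := by
    intro x
    apply tf_inj (F := F)
    apply LinearMap.ext
    intro y
    rw [hu0, hβ', tf_sl, hu0]
  obtain ⟨h, hh⟩ := lov D (sl_semi D b) (sl_semi D ((b.map D.σ)ᵀ)) (sl_bij D b hb)
    (sl_bij D _ hb') u hu
  let H : Matrix m m E := LinearMap.toMatrix' h.toLinearMap
  let K : Matrix m m E := LinearMap.toMatrix' h.symm.toLinearMap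
  have hHK : H * K = 1 := by
    rw [← LinearMap.toMatrix'_comp]
    have : h.toLinearMap ∘ₗ h.symm.toLinearMap = LinearMap.id := by
      ext x; simp
    rw [this, LinearMap.toMatrix'_id]
  have hHv : ∀ x, h x = H *ᵥ x := by
    intro x
    rw [← Matrix.toLin'_apply, Matrix.toLin'_toMatrix']
    rfl
  have key : (b.map D.σ)ᵀ * H.map D.σ = H * b := by
    apply Matrix.toLin'.injective
    apply LinearMap.ext
    intro x
    rw [toLin'_apply, toLin'_apply]
    have h1 := hh (fun i => D.σ (x i))
    rw [hHv, hHv, sl_apply, sl_apply, mulVec_mulVec] at h1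
    have e1 : (fun i => D.σ (D.σ (x i))) = x := by ext i; rw [D.σσ]
    have e2 : (fun i => D.σ ((H *ᵥ fun i => D.σ (x i)) i)) = (H.map D.σ) *ᵥ x := by
      ext i
      simp [mulVec, dotProduct, map_sum, D.σσ]
    rw [e1, e2, mulVec_mulVec] at h1
    exact h1.symm
  refine ⟨H, K, ?_, ?_, ?_⟩
  · rw [← det_mul, hHK, det_one]
  · rw [transpose_one, Matrix.mul_one, hHK]
  · rw [← key, Matrix.mul_assoc, ← map_mul', hHK, map_one', Matrix.mul_one]

end

end Pool.Agent.K1H2.MO
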