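import Mathlib
import Pool.Agent.K1H2.MO.Lov

/-! Nilpotent semilinear maps: splitting off a chain. -/

set_option linter.unusedSectionVars false

namespace Pool.Agent.K1H2.MO

open Module

section

variable {F E : Type*} [Field F] [Field E] [Algebra F E] (D : QD F E)
variable {W : Type*} [AddCommGroup W] [Module F W] [Module E W] [IsScalarTower F E W]

theorem semi_pow {ψ : W →ₗ[F] W} (hψ : ∀ (e : E) x, ψ (e • x) = D.σ e • ψ x) (i : ℕ) (e : E)
    (x : W) : (ψ ^ i) (e • x) = (D.σ ^ i) e • (ψ ^ i) x := by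
  induction i generalizing e x with
  | zero => simp
  | succ i ih =>
    rw [pow_succ, Module.End.mul_apply, hψ, ih, pow_succ, Module.End.mul_apply, AlgEquiv.mul_apply]

/-- **Splitting off a chain** from a nilpotent semilinear map. -/
theorem nil_split [Finite W] [Finite E] [Nontrivial W] {ψ : W →ₗ[F] W}
    (hψ : ∀ (e : E) x, ψ (e • x) = D.σ e • ψ x) {m : ℕ} (hm : ψ ^ m = 0) :
    (∃ C R : Submodule E W, IsCompl C R ∧ C ≠ ⊥ ∧ R ≠ ⊥ ∧ (∀ x ∈ C, ψ x ∈ C) ∧
      (∀ x ∈ R, ψ x ∈ R)) ∨
    (∃ (k : ℕ) (e : Basis (Fin k) E W), ∀ i : Fin k,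
      ψ (e i) = if h : (i : ℕ) + 1 < k then e ⟨i + 1, h⟩ else 0) := by
  classical
  -- nilpotency index
  have hex : ∃ k, ψ ^ k = 0 := ⟨m, hm⟩
  obtain ⟨k, hk, hmin⟩ : ∃ k, ψ ^ k = 0 ∧ ∀ j < k, ψ ^ j ≠ 0 :=
    ⟨Nat.find hex, Nat.find_spec hex, fun j hj => Nat.find_min hex hj⟩
  have hk0 : 0 < k := by
    rcases Nat.eq_zero_or_pos k with h | h
    · subst h
      exfalso
      obtain ⟨x, hx⟩ := exists_ne (0 : W)
      apply hx
      have := LinearMap.congr_fun hk x
      simpa using this
    · exact h
  obtain ⟨w, hw⟩ : ∃ w, (ψ ^ (k - 1)) w ≠ 0 := by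
    by_contra h
    push Not at h
    exact hmin (k - 1) (by omega) (LinearMap.ext h)
  obtain ⟨ℓ, hℓ⟩ : ∃ ℓ : Module.Dual E W, ℓ ((ψ ^ (k - 1)) w) ≠ 0 := by
    by_contra h
    push Not at h
    exact hw ((Module.forall_dual_apply_eq_zero_iff E _).1 h)
  have hzero : ∀ i, k ≤ i → ∀ x, (ψ ^ i) x = 0 := by
    intro i hi x
    obtain ⟨j, rfl⟩ := Nat.exists_eq_add_of_le hi
    rw [pow_add, hk, zero_mul, LinearMap.zero_apply]
  let v : Fin k → W := fun i => (ψ ^ (i : ℕ)) w
  let P : (Fin k → E) →ₗ[E] W := Fintype.linearCombination E v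
  have hP : ∀ c, P c = ∑ i, c i • v i := fun c => rfl
  let L : W → (Fin k → E) := fun x i => ℓ ((ψ ^ (i : ℕ)) x)
  have hLsub : ∀ x y, L (x - y) = L x - L y := by
    intro x y; funext i; simp [L]
  have hLP : ∀ c, L (P c) = 0 → c = 0 := by
    intro c hc
    have key : ∀ i : ℕ, ∀ (h : i < k), c ⟨i, h⟩ = 0 := by
      intro i
      induction i using Nat.strong_induction_on with
      | _ i ih =>
        intro h
        have h1 : ℓ ((ψ ^ (k - 1 - i)) (P c)) = 0 := congrFun hc ⟨k - 1 - i, by omega⟩
        rw [hP, map_sum, map_sum, Finset.sum_eq_single ⟨i, h⟩] at h1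
        · rw [semi_pow D hψ, map_smul] at h1
          have e1 : (ψ ^ (k - 1 - i)) (v ⟨i, h⟩) = (ψ ^ (k - 1)) w := by
            change (ψ ^ (k - 1 - i)) ((ψ ^ i) w) = _
            rw [← Module.End.mul_apply, ← pow_add]
            congr 2
            omega
          rw [e1, smul_eq_mul] at h1
          have h2 := (mul_eq_zero.1 h1).resolve_right hℓ
          exact (map_eq_zero_iff _ (AlgEquiv.injective _)).1 h2
        · intro j _ hj
          rw [semi_pow D hψ, map_smul]
          rcases lt_trichotomy (j : ℕ) i with h2 | h2 | h2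
          · have := ih j h2 j.2
            rw [show (⟨(j : ℕ), j.2⟩ : Fin k) = j from rfl] at this
            rw [this, map_zero, zero_smul]
          · exact absurd (Fin.ext h2) hj
          · have : (ψ ^ (k - 1 - i)) (v j) = 0 := by
              change (ψ ^ (k - 1 - i)) ((ψ ^ (j : ℕ)) w) = _
              rw [← Module.End.mul_apply, ← pow_add]
              exact hzero _ (by omega) _
            rw [this, map_zero, smul_zero]
        · intro h2
          exact absurd (Finset.mem_univ _) h2
    funext i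
    exact key i i.2
  have hbij : Function.Bijective (fun c => L (P c)) := by
    rw [← Finite.injective_iff_bijective]
    intro c c' h
    have h1 : L (P (c - c')) = 0 := by
      rw [map_sub, hLsub]
      exact sub_eq_zero.2 h
    exact sub_eq_zero.1 (hLP _ h1)
  have hPinj : Function.Injective P := by
    intro c c' h
    apply hbij.1
    simp only [h]
  let R : Submodule E W :=
    { carrier := {x | ∀ i : ℕ, ℓ ((ψ ^ i) x) = 0}
      add_mem' := by
        intro x y hx hy i
        rw [map_add, map_add, hx i, hy i, add_zero]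
      zero_mem' := by
        intro i
        rw [map_zero, map_zero]
      smul_mem' := by
        intro e x hx i
        rw [semi_pow D hψ, map_smul, hx i, smul_zero] }
  have hR : ∀ x, x ∈ R ↔ L x = 0 := by
    intro x
    constructor
    · intro h
      funext i
      exact h i
    · intro h i
      by_cases hi : i < k
      · exact congrFun h ⟨i, hi⟩
      · rw [hzero i (by omega), map_zero]
  let C : Submodule E W := LinearMap.range P
  have hdec : ∀ x, ∃ c, x - P c ∈ R := by
    intro x
    obtain ⟨c, hc⟩ := hbij.2 (L x)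
    refine ⟨c, ?_⟩
    rw [hR, hLsub]
    exact sub_eq_zero.2 hc.symm
  by_cases hRb : R = ⊥
  · right
    have hsurj : Function.Surjective P := by
      intro x
      obtain ⟨c, hc⟩ := hdec x
      rw [hRb, Submodule.mem_bot, sub_eq_zero] at hc
      exact ⟨c, hc.symm⟩
    refine ⟨k, Basis.ofEquivFun (LinearEquiv.ofBijective P ⟨hPinj, hsurj⟩).symm, ?_⟩
    have he : ∀ i, (Basis.ofEquivFun (LinearEquiv.ofBijective P ⟨hPinj, hsurj⟩).symm) i = v i := by
      intro i
      rw [Basis.coe_ofEquivFun]
      change P (Pi.single i 1) = v i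
      rw [hP, Finset.sum_eq_single i]
      · simp
      · intro j _ hj
        simp [Pi.single_eq_of_ne hj]
      · intro h; exact absurd (Finset.mem_univ _) h
    intro i
    rw [he]
    have h1 : ψ (v i) = (ψ ^ ((i : ℕ) + 1)) w := by
      rw [pow_succ', Module.End.mul_apply]
    split_ifs with h
    · rw [he, h1]
    · rw [h1]
      exact hzero _ (by omega) _
  · left
    refine ⟨C, R, ?_, ?_, hRb, ?_, ?_⟩
    · constructor
      · rw [Submodule.disjoint_def]
        rintro _ ⟨c, rfl⟩ hx
        rw [hR] at hx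
        rw [hLP c hx, map_zero]
      · rw [codisjoint_iff, eq_top_iff]
        intro x _
        obtain ⟨c, hc⟩ := hdec x
        rw [Submodule.mem_sup]
        exact ⟨P c, ⟨c, rfl⟩, _, hc, by abel⟩
    · intro h
      have h1 : P (Pi.single ⟨0, hk0⟩ 1) = 0 := by
        have : P (Pi.single ⟨0, hk0⟩ 1) ∈ C := ⟨_, rfl⟩
        rw [h] at this
        simpa using this
      have h2 := hPinj (h1.trans (map_zero P).symm)
      have h3 := congrFun h2 ⟨0, hk0⟩
      simp at h3
    · rintro _ ⟨c, rfl⟩
      rw [hP, map_sum]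
      refine Submodule.sum_mem _ ?_
      intro i _
      rw [hψ]
      refine Submodule.smul_mem _ _ ?_
      have h1 : ψ (v i) = (ψ ^ ((i : ℕ) + 1)) w := by
        rw [pow_succ', Module.End.mul_apply]
      rw [h1]
      by_cases h : (i : ℕ) + 1 < k
      · refine ⟨Pi.single ⟨(i : ℕ) + 1, h⟩ 1, ?_⟩
        rw [hP, Finset.sum_eq_single ⟨(i : ℕ) + 1, h⟩]
        · simp [v]
        · intro j _ hj
          simp [Pi.single_eq_of_ne hj]
        · intro h; exact absurd (Finset.mem_univ _) h
      · rw [hzero _ (by omega)]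
        exact Submodule.zero_mem _
    · intro x hx i
      have := hx (i + 1)
      rw [pow_succ, Module.End.mul_apply] at this
      exact this

end

end Pool.Agent.K1H2.MO
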