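import Mathlib
import Pool.Agent.K1H2.MO.Mat
import Pool.Agent.K1H2.MO.Nil

/-! Every invertible pair is equivalent to its adjoint. -/

set_option linter.unusedSectionVars false
set_option linter.unusedSimpArgs false
set_option linter.unusedVariables false

namespace Pool.Agent.K1H2.MO

open Module Matrix

universe u

section

variable {F E : Type*} [Field F] [Field E] [Algebra F E] (D : QD F E)

/-- The pair `(a, b)` is good in some bases. -/
def PGood {W W' : Type*} [AddCommGroup W] [Module F W] [Module E W]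
    [AddCommGroup W'] [Module F W'] [Module E W'] (a b : W →ₗ[F] W') : Prop :=
  ∃ (k : ℕ) (e : Basis (Fin k) E W) (e' : Basis (Fin k) E W'),
    Good D (e'.toMatrix (fun i => a (e i))) (e'.toMatrix (fun i => b (e i)))

theorem PGood.mk' {ι : Type*} [Fintype ι] [DecidableEq ι]
    {W W' : Type*} [AddCommGroup W] [Module F W] [Module E W]
    [AddCommGroup W'] [Module F W'] [Module E W'] {a b : W →ₗ[F] W'}
    (e : Basis ι E W) (e' : Basis ι E W')
    (h : Good D (e'.toMatrix (fun i => a (e i))) (e'.toMatrix (fun i => b (e i)))) :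
    PGood D a b := by
  let f := Fintype.equivFin ι
  refine ⟨Fintype.card ι, e.reindex f, e'.reindex f, ?_⟩
  have key : ∀ c : W →ₗ[F] W', (e'.reindex f).toMatrix (fun i => c ((e.reindex f) i))
      = (e'.toMatrix (fun i => c (e i))).submatrix f.symm f.symm := by
    intro c
    ext i j
    simp [Basis.toMatrix_apply]
  rw [key, key]
  exact h.reindex D f

theorem PGood.prod {W W' W1 W1' W2 W2' : Type*} [AddCommGroup W] [Module F W] [Module E W]
    [AddCommGroup W'] [Module F W'] [Module E W']
    [AddCommGroup W1] [Module F W1] [Module E W1]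
    [AddCommGroup W1'] [Module F W1'] [Module E W1']
    [AddCommGroup W2] [Module F W2] [Module E W2]
    [AddCommGroup W2'] [Module F W2'] [Module E W2']
    {a b : W →ₗ[F] W'} {a1 b1 : W1 →ₗ[F] W1'} {a2 b2 : W2 →ₗ[F] W2'}
    (P : (W1 × W2) ≃ₗ[E] W) (P' : (W1' × W2') ≃ₗ[E] W')
    (ha : ∀ x y, a (P (x, y)) = P' (a1 x, a2 y)) (hb : ∀ x y, b (P (x, y)) = P' (b1 x, b2 y))
    (h1 : PGood D a1 b1) (h2 : PGood D a2 b2) : PGood D a b := by
  obtain ⟨k, e, e', h1⟩ := h1
  obtain ⟨l, f, f', h2⟩ := h2
  have key : ∀ (c : W →ₗ[F] W') (c1 : W1 →ₗ[F] W1') (c2 : W2 →ₗ[F] W2'),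
      (∀ x y, c (P (x, y)) = P' (c1 x, c2 y)) →
      ((e'.prod f').map P').toMatrix (fun i => c (((e.prod f).map P) i))
        = fromBlocks (e'.toMatrix (fun i => c1 (e i))) 0 0 (f'.toMatrix (fun i => c2 (f i))) := by
    intro c c1 c2 hc
    ext i j
    rcases i with i | i <;> rcases j with j | j
    · have : (e.prod f) (Sum.inl j) = (e j, 0) := by simp [Prod.ext_iff]
      simp only [Basis.toMatrix_apply, Basis.map_apply, Basis.map_repr, this,
        LinearEquiv.trans_apply]
      rw [hc, LinearEquiv.symm_apply_apply]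
      simp [Basis.toMatrix_apply]
    · have : (e.prod f) (Sum.inr j) = (0, f j) := by simp [Prod.ext_iff]
      simp only [Basis.toMatrix_apply, Basis.map_apply, Basis.map_repr, this,
        LinearEquiv.trans_apply]
      rw [hc, LinearEquiv.symm_apply_apply]
      simp [Basis.toMatrix_apply]
    · have : (e.prod f) (Sum.inl j) = (e j, 0) := by simp [Prod.ext_iff]
      simp only [Basis.toMatrix_apply, Basis.map_apply, Basis.map_repr, this,
        LinearEquiv.trans_apply]
      rw [hc, LinearEquiv.symm_apply_apply]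
      simp [Basis.toMatrix_apply]
    · have : (e.prod f) (Sum.inr j) = (0, f j) := by simp [Prod.ext_iff]
      simp only [Basis.toMatrix_apply, Basis.map_apply, Basis.map_repr, this,
        LinearEquiv.trans_apply]
      rw [hc, LinearEquiv.symm_apply_apply]
      simp [Basis.toMatrix_apply]
  refine PGood.mk' D ((e.prod f).map P) ((e'.prod f').map P') ?_
  rw [key a a1 a2 ha, key b b1 b2 hb]
  exact h1.block D h2

variable {W W' : Type u} [AddCommGroup W] [Module F W] [Module E W] [IsScalarTower F E W]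
  [Finite W] [AddCommGroup W'] [Module F W'] [Module E W'] [IsScalarTower F E W'] [Finite W']

/-- restriction of a map over the small field to subspaces over the big field -/
def rst (a : W →ₗ[F] W') (U : Submodule E W) (U' : Submodule E W') (h : ∀ x ∈ U, a x ∈ U') :
    U →ₗ[F] U' where
  toFun x := ⟨a x, h x x.2⟩
  map_add' x y := Subtype.ext (map_add a _ _)
  map_smul' c x := Subtype.ext (map_smul a c _)

theorem rst_apply (a : W →ₗ[F] W') (U : Submodule E W) (U' : Submodule E W')
    (h : ∀ x ∈ U, a x ∈ U') (x : U) : (rst a U U' h x : W') = a x := rfl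

/-- The statement proved by induction, for spaces of size at most `N`. -/
def Ind (D : QD F E) (N : ℕ) : Prop :=
  ∀ (W W' : Type u) [AddCommGroup W] [Module F W] [Module E W] [IsScalarTower F E W]
    [Finite W] [AddCommGroup W'] [Module F W'] [Module E W'] [IsScalarTower F E W'] [Finite W']
    (a b : W →ₗ[F] W'), (∀ (e : E) x, a (e • x) = e • a x) →
    (∀ (e : E) x, b (e • x) = D.σ e • b x) → Function.Bijective (a + b) → Nat.card W ≤ N →
    PGood D a b

theorem card_lt {U : Submodule E W} (hU : U ≠ ⊤) : Nat.card U < Nat.card W := by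
  have h1 : (U : Set W) ⊂ Set.univ := by
    rw [Set.ssubset_univ_iff]
    intro h
    apply hU
    rw [eq_top_iff]
    intro x _
    have : x ∈ (U : Set W) := by rw [h]; exact Set.mem_univ x
    exact this
  have := Set.ncard_lt_ncard h1 Set.finite_univ
  rwa [Set.ncard_univ] at this

theorem split {N : ℕ} (ih : Ind.{u} D N) {a b : W →ₗ[F] W'}
    (ha : ∀ (e : E) x, a (e • x) = e • a x) (hb : ∀ (e : E) x, b (e • x) = D.σ e • b x)
    (hg : Function.Bijective (a + b)) (hN : Nat.card W ≤ N + 1) {U R : Submodule E W}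
    {U' R' : Submodule E W'} (h : IsCompl U R) (h' : IsCompl U' R')
    (haU : ∀ x ∈ U, a x ∈ U') (haR : ∀ x ∈ R, a x ∈ R')
    (hbU : ∀ x ∈ U, b x ∈ U') (hbR : ∀ x ∈ R, b x ∈ R') (hU : U ≠ ⊥) (hR : R ≠ ⊥) :
    PGood D a b := by
  have hUt : U ≠ ⊤ := by
    intro e
    rw [e] at h
    exact hR (eq_bot_of_top_isCompl h)
  have hRt : R ≠ ⊤ := by
    intro e
    rw [e] at h
    exact hU (eq_bot_of_isCompl_top h)
  have hdis : ∀ x, x ∈ U' → x ∈ R' → x = 0 := by
    intro x h1 h2
    exact (Submodule.disjoint_def.1 h'.disjoint) x h1 h2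
  have dec : ∀ x, ∃ u ∈ U, ∃ r ∈ R, u + r = x := by
    intro x
    have : x ∈ U ⊔ R := by rw [h.sup_eq_top]; exact Submodule.mem_top
    exact Submodule.mem_sup.1 this
  have hgU : Function.Bijective (rst a U U' haU + rst b U U' hbU) := by
    constructor
    · intro x y hxy
      apply Subtype.ext
      apply hg.1
      exact congrArg Subtype.val hxy
    · intro y
      obtain ⟨x, hx⟩ := hg.2 y
      obtain ⟨u, hu, r, hr, rfl⟩ := dec x
      have h1 : (a + b) r = y - (a + b) u := by
        rw [← hx, map_add]; abel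
      have h2 : (a + b) r = 0 := by
        apply hdis
        · rw [h1]
          exact U'.sub_mem y.2 (U'.add_mem (haU u hu) (hbU u hu))
        · exact R'.add_mem (haR r hr) (hbR r hr)
      refine ⟨⟨u, hu⟩, ?_⟩
      apply Subtype.ext
      change (a + b) u = y
      rw [← hx, map_add, h2, add_zero]
  have hgR : Function.Bijective (rst a R R' haR + rst b R R' hbR) := by
    constructor
    · intro x y hxy
      apply Subtype.ext
      apply hg.1
      exact congrArg Subtype.val hxy
    · intro y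
      obtain ⟨x, hx⟩ := hg.2 y
      obtain ⟨u, hu, r, hr, rfl⟩ := dec x
      have h1 : (a + b) u = y - (a + b) r := by
        rw [← hx, map_add]; abel
      have h2 : (a + b) u = 0 := by
        apply hdis
        · exact U'.add_mem (haU u hu) (hbU u hu)
        · rw [h1]
          exact R'.sub_mem y.2 (R'.add_mem (haR r hr) (hbR r hr))
      refine ⟨⟨r, hr⟩, ?_⟩
      apply Subtype.ext
      change (a + b) r = y
      rw [← hx, map_add, h2, zero_add]
  have c1 := card_lt hUt
  have c2 := card_lt hRt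
  have p1 := ih U U' (rst a U U' haU) (rst b U U' hbU)
    (fun e x => Subtype.ext (ha e x)) (fun e x => Subtype.ext (hb e x)) hgU (by omega)
  have p2 := ih R R' (rst a R R' haR) (rst b R R' hbR)
    (fun e x => Subtype.ext (ha e x)) (fun e x => Subtype.ext (hb e x)) hgR (by omega)
  refine PGood.prod D (Submodule.prodEquivOfIsCompl U R h) (Submodule.prodEquivOfIsCompl U' R' h')
    ?_ ?_ p1 p2
  · intro x y
    rw [Submodule.coe_prodEquivOfIsCompl', Submodule.coe_prodEquivOfIsCompl', map_add]
    rfl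
  · intro x y
    rw [Submodule.coe_prodEquivOfIsCompl', Submodule.coe_prodEquivOfIsCompl', map_add]
    rfl

/-- the image of a basis under a bijective semilinear map -/
theorem bas_semi {ι : Type*} [Fintype ι] {d : W →ₗ[F] W'} (ρ : E ≃+* E)
    (hd : ∀ (e : E) x, d (e • x) = ρ e • d x) (hb : Function.Bijective d)
    (e : Basis ι E W) : ∃ e' : Basis ι E W', ∀ i, e' i = d (e i) := by
  have hli : LinearIndependent E (fun i => d (e i)) := by
    rw [Fintype.linearIndependent_iff]
    intro g hg
    have h1 : d (∑ i, ρ.symm (g i) • e i) = 0 := by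
      rw [map_sum, ← hg]
      refine Finset.sum_congr rfl fun i _ => ?_
      rw [hd, ρ.apply_symm_apply]
    have h2 : ∑ i, ρ.symm (g i) • e i = 0 := hb.1 (h1.trans (map_zero d).symm)
    intro i
    have := Fintype.linearIndependent_iff.1 e.linearIndependent _ h2 i
    exact (map_eq_zero_iff _ ρ.symm.injective).1 this
  have hsp : ⊤ ≤ Submodule.span E (Set.range fun i => d (e i)) := by
    intro y _
    obtain ⟨x, rfl⟩ := hb.2 y
    rw [← e.sum_repr x, map_sum]
    refine Submodule.sum_mem _ fun i _ => ?_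
    rw [hd]
    exact Submodule.smul_mem _ _ (Submodule.subset_span ⟨i, rfl⟩)
  refine ⟨Basis.mk hli hsp, fun i => ?_⟩
  rw [Basis.mk_apply]

theorem chain_mat {k : ℕ} {c d : W →ₗ[F] W'} {ψ : W →ₗ[F] W} (hc : ∀ x, c x = d (ψ x))
    (e : Basis (Fin k) E W) (e' : Basis (Fin k) E W') (he' : ∀ i, e' i = d (e i))
    (he : ∀ i : Fin k, ψ (e i) = if h : (i : ℕ) + 1 < k then e ⟨i + 1, h⟩ else 0) :
    e'.toMatrix (fun i => d (e i)) = 1 ∧ e'.toMatrix (fun i => c (e i)) = shf E k := by
  constructor
  · have : (fun i => d (e i)) = e' := by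
      funext i; rw [he']
    rw [this, Basis.toMatrix_self]
  · ext i j
    rw [Basis.toMatrix_apply, hc, he, shf_apply]
    split_ifs with h1 h2 h2
    · rw [← he', Basis.repr_self, Finsupp.single_apply, if_pos]
      exact Fin.ext h2.symm
    · rw [← he', Basis.repr_self, Finsupp.single_apply, if_neg]
      intro h3
      apply h2
      rw [← h3]
    · exfalso
      have := i.2
      omega
    · rw [map_zero, map_zero]
      rfl

/-- the case in which one of the two maps is bijective and the other one is relatively nilpotent -/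
theorem nil_case [Finite E] {N : ℕ} (ih : Ind.{u} D N) {a b : W →ₗ[F] W'}
    (ha : ∀ (e : E) x, a (e • x) = e • a x) (hb : ∀ (e : E) x, b (e • x) = D.σ e • b x)
    (hg : Function.Bijective (a + b)) (hN : Nat.card W ≤ N + 1) [Nontrivial W]
    {c d : W →ₗ[F] W'} (hcd : (c = a ∧ d = b) ∨ (c = b ∧ d = a)) (ρ : E ≃+* E)
    (hd : ∀ (e : E) x, d (e • x) = ρ e • d x)
    (hdb : Function.Bijective d) {ψ : W →ₗ[F] W} (hc : ∀ x, c x = d (ψ x))
    (hψ : ∀ (e : E) x, ψ (e • x) = D.σ e • ψ x) {m : ℕ} (hm : ψ ^ m = 0) :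
    PGood D a b := by
  rcases nil_split D hψ hm with ⟨C, R, hCR, hC, hR, hCs, hRs⟩ | ⟨k, e, he⟩
  · let im : Submodule E W → Submodule E W' := fun K =>
      { carrier := {y | ∃ x ∈ K, d x = y}
        add_mem' := by
          rintro _ _ ⟨x, hx, rfl⟩ ⟨y, hy, rfl⟩
          exact ⟨x + y, K.add_mem hx hy, map_add _ _ _⟩
        zero_mem' := ⟨0, K.zero_mem, map_zero _⟩
        smul_mem' := by
          rintro s _ ⟨x, hx, rfl⟩
          refine ⟨ρ.symm s • x, K.smul_mem _ hx, ?_⟩
          rw [hd, ρ.apply_symm_apply] }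
    have him : ∀ K : Submodule E W, ∀ x ∈ K, d x ∈ im K := fun K x hx => ⟨x, hx, rfl⟩
    have hcompl : IsCompl (im C) (im R) := by
      constructor
      · rw [Submodule.disjoint_def]
        rintro _ ⟨x, hx, rfl⟩ ⟨y, hy, h⟩
        have := hdb.1 h
        subst this
        rw [(Submodule.disjoint_def.1 hCR.disjoint) y hx hy, map_zero]
      · rw [codisjoint_iff, eq_top_iff]
        intro y _
        obtain ⟨x, rfl⟩ := hdb.2 y
        have : x ∈ C ⊔ R := by rw [hCR.sup_eq_top]; exact Submodule.mem_top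
        obtain ⟨u, hu, r, hr, rfl⟩ := Submodule.mem_sup.1 this
        rw [map_add]
        exact Submodule.add_mem_sup (him C u hu) (him R r hr)
    have hc' : ∀ K : Submodule E W, (∀ x ∈ K, ψ x ∈ K) → ∀ x ∈ K, c x ∈ im K := by
      intro K hK x hx
      rw [hc]
      exact him K _ (hK x hx)
    rcases hcd with ⟨rfl, rfl⟩ | ⟨rfl, rfl⟩
    · exact split D ih ha hb hg hN hCR hcompl (hc' C hCs) (hc' R hRs) (him C) (him R) hC hR
    · exact split D ih ha hb hg hN hCR hcompl (him C) (him R) (hc' C hCs) (hc' R hRs) hC hR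
  · obtain ⟨e', he'⟩ := bas_semi ρ hd hdb e
    obtain ⟨m1, m2⟩ := chain_mat hc e e' he' he
    refine ⟨k, e, e', ?_⟩
    rcases hcd with ⟨rfl, rfl⟩ | ⟨rfl, rfl⟩
    · rw [m1, m2]
      exact (good_shf k D).2
    · rw [m1, m2]
      exact (good_shf k D).1

/-- subspaces over the small field stable under the big field -/
def up (K : Submodule F W) (h : ∀ (e : E), ∀ x ∈ K, e • x ∈ K) : Submodule E W where
  carrier := K
  add_mem' := fun hx hy => K.add_mem hx hy
  zero_mem' := K.zero_mem
  smul_mem' := fun e x hx => h e x hx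

theorem mem_up {K : Submodule F W} {h : ∀ (e : E), ∀ x ∈ K, e • x ∈ K} {x : W} :
    x ∈ up K h ↔ x ∈ K := Iff.rfl

theorem up_compl {K L : Submodule F W} (hK : ∀ (e : E), ∀ x ∈ K, e • x ∈ K)
    (hL : ∀ (e : E), ∀ x ∈ L, e • x ∈ L) (h : IsCompl K L) : IsCompl (up K hK) (up L hL) := by
  constructor
  · rw [Submodule.disjoint_def]
    intro x h1 h2
    exact (Submodule.disjoint_def.1 h.disjoint) x h1 h2
  · rw [codisjoint_iff, eq_top_iff]
    intro x _
    have : x ∈ K ⊔ L := by rw [h.sup_eq_top]; exact Submodule.mem_top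
    obtain ⟨u, hu, r, hr, rfl⟩ := Submodule.mem_sup.1 this
    exact Submodule.add_mem_sup (show u ∈ up K hK from hu) (show r ∈ up L hL from hr)

/-- the Fitting splitting for an operator `T` which is `g⁻¹ a` or `g⁻¹ b` -/
theorem fitting {N : ℕ} (ih : Ind.{u} D N) {a b : W →ₗ[F] W'}
    (ha : ∀ (e : E) x, a (e • x) = e • a x) (hb : ∀ (e : E) x, b (e • x) = D.σ e • b x)
    (hg : Function.Bijective (a + b)) (hN : Nat.card W ≤ N + 1)
    (T : W →ₗ[F] W) {c : W →ₗ[F] W'} (hcab : c = a ∨ c = b) (hT : ∀ x, (a + b) (T x) = c x) :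
    PGood D a b ∨ (∃ m, T ^ m = 0) ∨ Function.Bijective T := by
  have cT : ∀ x, (a + b) (x - T x) = (a + b - c) x := by
    intro x
    rw [map_sub, hT]
    rfl
  -- stability predicate
  let St : Submodule F W → Prop := fun K =>
    (∀ (e : E), ∀ x ∈ K, e • x ∈ K) ∧ (∀ (e : E), ∀ x ∈ K, ∀ y, (a + b) y = e • (a + b) x → y ∈ K)
      ∧ (∀ x ∈ K, T x ∈ K)
  -- the maps in terms of `T`
  have hA : ∃ A : W →ₗ[F] W, (∀ x, (a + b) (A x) = a x) ∧ (∀ K, St K → ∀ x ∈ K, A x ∈ K) ∧
      (A = T ∨ A = LinearMap.id - T) := by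
    rcases hcab with rfl | rfl
    · exact ⟨T, hT, fun K hK => hK.2.2, Or.inl rfl⟩
    · refine ⟨LinearMap.id - T, ?_, ?_, Or.inr rfl⟩
      · intro x
        rw [LinearMap.sub_apply, LinearMap.id_apply, cT]
        simp
      · intro K hK x hx
        exact K.sub_mem hx (hK.2.2 x hx)
  obtain ⟨A, hA1, hA2, hA3⟩ := hA
  have hB1 : ∀ x, (a + b) (x - A x) = b x := by
    intro x
    rw [map_sub, hA1]
    simp
  -- twisted commutation of `T` with scalars
  obtain ⟨ρ, hρ⟩ : ∃ ρ : E ≃+* E, ∀ (e : E) x, c (e • x) = ρ e • c x := by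
    rcases hcab with rfl | rfl
    · exact ⟨RingEquiv.refl E, ha⟩
    · exact ⟨D.σ.toRingEquiv, hb⟩
  -- the second action in terms of the first one
  have hJ' : ∀ (e : E) x y, (a + b) y = e • (a + b) x →
      y = A (e • x) + (D.σ e • x - A (D.σ e • x)) := by
    intro e x y h
    apply hg.1
    rw [h, map_add, hA1, hB1, ha, hb, D.σσ]
    simp [smul_add]
  have hJ : ∀ (e : E) x y z, (a + b) y = e • (a + b) (A x) →
      (a + b) z = D.σ e • (a + b) (x - A x) → e • x = y + z := by
    intro e x y z h1 h2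
    apply hg.1
    rw [map_add, h1, h2, hA1, hB1]
    simp [ha, hb]
  have hcommT : ∀ x, T (A x) = A (T x) := by
    intro x
    rcases hA3 with h | h
    · rw [h]
    · rw [h]; simp
  have stK : ∀ m : ℕ, St (LinearMap.ker (T ^ m)) := by
    intro m
    induction m with
    | zero =>
      refine ⟨?_, ?_, ?_⟩
      · intro e x hx
        have : x = 0 := by simpa using hx
        subst this
        simp
      · intro e x hx y hy
        have : x = 0 := by simpa using hx
        subst this
        rw [map_zero, smul_zero] at hy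
        have : y = 0 := hg.1 (hy.trans (map_zero _).symm)
        rw [this]
        exact Submodule.zero_mem _
      · intro x hx
        have : x = 0 := by simpa using hx
        subst this
        simp
    | succ m ihm =>
      have h3 : ∀ x ∈ LinearMap.ker (T ^ (m + 1)), T x ∈ LinearMap.ker (T ^ (m + 1)) := by
        intro x hx
        rw [LinearMap.mem_ker] at hx ⊢
        rw [← Module.End.mul_apply, ← pow_succ, pow_succ', Module.End.mul_apply, hx, map_zero]
      have h1 : ∀ (e : E), ∀ x ∈ LinearMap.ker (T ^ (m + 1)),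
          e • x ∈ LinearMap.ker (T ^ (m + 1)) := by
        intro e x hx
        rw [LinearMap.mem_ker, pow_succ, Module.End.mul_apply]
        have hx' : T x ∈ LinearMap.ker (T ^ m) := by
          rw [LinearMap.mem_ker, pow_succ, Module.End.mul_apply] at hx
          exact hx
        have := ihm.2.1 (ρ e) (T x) hx' (T (e • x)) (by rw [hT, hT, hρ])
        exact this
      refine ⟨h1, ?_, h3⟩
      intro e x hx y hy
      rw [hJ' e x y hy]
      have hA' : ∀ x ∈ LinearMap.ker (T ^ (m + 1)), A x ∈ LinearMap.ker (T ^ (m + 1)) := by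
        intro x hx
        rcases hA3 with h | h
        · rw [h]; exact h3 x hx
        · rw [h]; exact Submodule.sub_mem _ hx (h3 x hx)
      exact Submodule.add_mem _ (hA' _ (h1 e x hx))
        (Submodule.sub_mem _ (h1 _ x hx) (hA' _ (h1 _ x hx)))
  have stR : ∀ m : ℕ, St (LinearMap.range (T ^ m)) := by
    intro m
    induction m with
    | zero =>
      have : LinearMap.range (T ^ 0) = ⊤ := by
        rw [pow_zero]; exact LinearMap.range_id
      rw [this]
      exact ⟨fun _ _ _ => Submodule.mem_top, fun _ _ _ _ _ => Submodule.mem_top,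
        fun _ _ => Submodule.mem_top⟩
    | succ m ihm =>
      have h3 : ∀ x ∈ LinearMap.range (T ^ (m + 1)), T x ∈ LinearMap.range (T ^ (m + 1)) := by
        rintro _ ⟨x, rfl⟩
        refine ⟨T x, ?_⟩
        rw [← Module.End.mul_apply, ← pow_succ, pow_succ', Module.End.mul_apply]
      have h2 : ∀ (e : E), ∀ x ∈ LinearMap.range (T ^ (m + 1)), ∀ y,
          (a + b) y = e • (a + b) x → y ∈ LinearMap.range (T ^ (m + 1)) := by
        rintro e _ ⟨x, rfl⟩ y hy
        have h4 : T (ρ.symm e • (T ^ m) x) = y := by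
          apply hg.1
          rw [hy, hT, hρ, ρ.apply_symm_apply, pow_succ', Module.End.mul_apply, hT]
        obtain ⟨z, hz⟩ := ihm.1 (ρ.symm e) ((T ^ m) x) ⟨x, rfl⟩
        refine ⟨z, ?_⟩
        rw [← h4, ← hz, pow_succ', Module.End.mul_apply]
      refine ⟨?_, h2, h3⟩
      intro e x hx
      have hA' : ∀ x ∈ LinearMap.range (T ^ (m + 1)), A x ∈ LinearMap.range (T ^ (m + 1)) := by
        intro x hx
        rcases hA3 with h | h
        · rw [h]; exact h3 x hx
        · rw [h]; exact Submodule.sub_mem _ hx (h3 x hx)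
      obtain ⟨y, hy⟩ := hg.2 (e • (a + b) (A x))
      obtain ⟨z, hz⟩ := hg.2 (D.σ e • (a + b) (x - A x))
      rw [hJ e x y z hy hz]
      exact Submodule.add_mem _ (h2 e (A x) (hA' x hx) y hy)
        (h2 _ (x - A x) (Submodule.sub_mem _ hx (hA' x hx)) z hz)
  -- Fitting
  have hfin : IsNoetherian F W := inferInstance
  have hart : IsArtinian F W := inferInstance
  obtain ⟨m, hm1, hm⟩ : ∃ m, 1 ≤ m ∧ IsCompl (LinearMap.ker (T ^ m)) (LinearMap.range (T ^ m)) := by
    have h1 := (LinearMap.eventually_isCompl_ker_pow_range_pow T)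
    obtain ⟨m, hm⟩ := Filter.eventually_atTop.1 h1
    exact ⟨m + 1, by omega, hm (m + 1) (by omega)⟩
  by_cases hk : LinearMap.ker (T ^ m) = ⊥
  · right; right
    rw [← Finite.injective_iff_bijective, injective_iff_map_eq_zero]
    intro x hx
    have : x ∈ LinearMap.ker (T ^ m) := by
      obtain ⟨j, rfl⟩ := Nat.exists_eq_add_of_le hm1
      rw [LinearMap.mem_ker, add_comm, pow_succ, Module.End.mul_apply, hx, map_zero]
    rw [hk] at this
    simpa using this
  by_cases hr : LinearMap.range (T ^ m) = ⊥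
  · right; left
    exact ⟨m, LinearMap.range_eq_bot.1 hr⟩
  left
  -- image subspaces
  let im : ∀ K : Submodule F W, St K → Submodule E W' := fun K hK =>
    { carrier := {y | ∃ x ∈ K, (a + b) x = y}
      add_mem' := by
        rintro _ _ ⟨x, hx, rfl⟩ ⟨y, hy, rfl⟩
        exact ⟨x + y, K.add_mem hx hy, map_add _ _ _⟩
      zero_mem' := ⟨0, K.zero_mem, map_zero _⟩
      smul_mem' := by
        rintro s _ ⟨x, hx, rfl⟩
        obtain ⟨y, hy⟩ := hg.2 (s • (a + b) x)
        exact ⟨y, hK.2.1 s x hx y hy, hy⟩ }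
  have hKa : ∀ (K : Submodule F W) (hK : St K), ∀ x ∈ K, a x ∈ im K hK := by
    intro K hK x hx
    exact ⟨A x, hA2 K hK x hx, hA1 x⟩
  have hKb : ∀ (K : Submodule F W) (hK : St K), ∀ x ∈ K, b x ∈ im K hK := by
    intro K hK x hx
    exact ⟨x - A x, K.sub_mem hx (hA2 K hK x hx), hB1 x⟩
  have hcompl : IsCompl (im _ (stK m)) (im _ (stR m)) := by
    constructor
    · rw [Submodule.disjoint_def]
      rintro _ ⟨x, hx, rfl⟩ ⟨y, hy, h⟩
      have := hg.1 h
      subst this
      rw [(Submodule.disjoint_def.1 hm.disjoint) y hx hy, map_zero]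
    · rw [codisjoint_iff, eq_top_iff]
      intro y _
      obtain ⟨x, rfl⟩ := hg.2 y
      have : x ∈ LinearMap.ker (T ^ m) ⊔ LinearMap.range (T ^ m) := by
        rw [hm.sup_eq_top]; exact Submodule.mem_top
      obtain ⟨u, hu, r, hr, rfl⟩ := Submodule.mem_sup.1 this
      rw [map_add]
      exact Submodule.add_mem_sup (show (a + b) u ∈ im _ (stK m) from ⟨u, hu, rfl⟩)
        (show (a + b) r ∈ im _ (stR m) from ⟨r, hr, rfl⟩)
  refine split D ih ha hb hg hN (up_compl (stK m).1 (stR m).1 hm) hcompl
    (hKa _ (stK m)) (hKa _ (stR m)) (hKb _ (stK m)) (hKb _ (stR m)) ?_ ?_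
  · intro h
    apply hk
    rw [eq_bot_iff]
    intro x hx
    have : x ∈ up _ (stK m).1 := hx
    rw [h] at this
    simpa using this
  · intro h
    apply hr
    rw [eq_bot_iff]
    intro x hx
    have : x ∈ up _ (stR m).1 := hx
    rw [h] at this
    simpa using this

end

end Pool.Agent.K1H2.MO
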