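import Mathlib
import Pool.Agent.K1H2.MO.Fit

/-! Every invertible pair is equivalent to its adjoint: the theorem. -/

set_option linter.unusedSectionVars false
set_option linter.unusedSimpArgs false
set_option linter.unusedVariables false

namespace Pool.Agent.K1H2.MO

open Module Matrix

universe u

section

variable {F E : Type*} [Field F] [Field E] [Algebra F E] (D : QD F E)

variable {W W' : Type u} [AddCommGroup W] [Module F W] [Module E W] [IsScalarTower F E W]
  [Finite W] [AddCommGroup W'] [Module F W'] [Module E W'] [IsScalarTower F E W'] [Finite W']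

theorem both_bij [Finite E] [FiniteDimensional F E] [Algebra.IsSeparable F E] {a b : W →ₗ[F] W'}
    (ha : ∀ (e : E) x, a (e • x) = e • a x) (hb : ∀ (e : E) x, b (e • x) = D.σ e • b x)
    (hab : Function.Bijective a) (hbb : Function.Bijective b) : PGood D a b := by
  let e := Module.finBasis E W
  obtain ⟨e', he'⟩ := bas_semi (RingEquiv.refl E) ha hab e
  obtain ⟨f, hf⟩ := bas_semi D.σ.toRingEquiv hb hbb e
  refine ⟨_, e, e', ?_⟩
  have h1 : (fun i => a (e i)) = e' := by funext i; rw [he']
  have h2 : (fun i => b (e i)) = f := by funext i; rw [hf]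
  rw [h1, h2, Basis.toMatrix_self]
  apply good_one
  have := Basis.toMatrix_mul_toMatrix_flip e' f
  have h3 := congrArg Matrix.det this
  rw [det_mul, det_one] at h3
  exact IsUnit.of_mul_eq_one _ h3

/-- an operator defined by a bijective map -/
theorem quot_nil {c d : W →ₗ[F] W'} {g : W →ₗ[F] W'} (hg : Function.Bijective g)
    {A B : W →ₗ[F] W} (hAB : A * B = B * A) (hA : ∀ x, g (A x) = c x) (hB : ∀ x, g (B x) = d x)
    {m : ℕ} (hm : A ^ m = 0) (hBb : Function.Bijective B) :
    ∃ ψ : W →ₗ[F] W, (∀ x, c x = d (ψ x)) ∧ ψ ^ m = 0 := by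
  let β : W ≃ₗ[F] W := LinearEquiv.ofBijective B hBb
  let β' : Module.End F W := β.symm.toLinearMap
  have h1 : B * β' = 1 := by
    ext x
    exact β.apply_symm_apply x
  have h2 : β' * B = 1 := by
    ext x
    exact β.symm_apply_apply x
  have hcomm : Commute β' A := by
    change β' * A = A * β'
    calc β' * A = β' * A * (B * β') := by rw [h1, mul_one]
      _ = β' * (A * B) * β' := by simp only [mul_assoc]
      _ = (β' * B) * A * β' := by rw [hAB]; simp only [mul_assoc]
      _ = A * β' := by rw [h2, one_mul]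
  refine ⟨β' * A, ?_, ?_⟩
  · intro x
    rw [← hB, ← hA]
    congr 1
    change A x = (B * β') (A x)
    rw [h1]; rfl
  · rw [hcomm.mul_pow, hm, mul_zero]

theorem main_ind [Finite E] [FiniteDimensional F E] [Algebra.IsSeparable F E] :
    ∀ N, Ind.{u} D N := by
  intro N
  induction N with
  | zero =>
    intro W W' _ _ _ _ _ _ _ _ _ _ a b ha hb hg hN
    exfalso
    have : 0 < Nat.card W := Nat.card_pos
    omega
  | succ N ih =>
    intro W W' _ _ _ _ _ _ _ _ _ _ a b ha hb hg hN
    by_cases hW : Subsingleton W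
    · have hW' : Subsingleton W' := ⟨fun x y => by
        obtain ⟨x', rfl⟩ := hg.2 x
        obtain ⟨y', rfl⟩ := hg.2 y
        rw [Subsingleton.elim x' y']⟩
      have hbij : ∀ c : W →ₗ[F] W', Function.Bijective c :=
        fun c => ⟨fun _ _ _ => Subsingleton.elim _ _, fun y => ⟨0, Subsingleton.elim _ _⟩⟩
      exact both_bij D ha hb (hbij a) (hbij b)
    have : Nontrivial W := not_subsingleton_iff_nontrivial.1 hW
    let g : W ≃ₗ[F] W' := LinearEquiv.ofBijective (a + b) hg
    have hgg : ∀ x, (a + b) (g.symm x) = x := fun x => g.apply_symm_apply x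
    let A : Module.End F W := g.symm.toLinearMap ∘ₗ a
    let B : Module.End F W := g.symm.toLinearMap ∘ₗ b
    have hA : ∀ x, (a + b) (A x) = a x := fun x => hgg _
    have hB : ∀ x, (a + b) (B x) = b x := fun x => hgg _
    have hAB1 : A + B = 1 := by
      ext x
      apply hg.1
      change (a + b) (A x + B x) = (a + b) x
      rw [map_add, hA, hB]
      rfl
    have hAB : A * B = B * A := by
      have : B = 1 - A := by rw [← hAB1]; abel
      rw [this]; noncomm_ring
    have bijA : Function.Bijective A → Function.Bijective a := by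
      intro h
      have : (a : W → W') = (a + b : W →ₗ[F] W') ∘ A := by
        funext x; exact (hA x).symm
      rw [this]
      exact hg.comp h
    have bijB : Function.Bijective B → Function.Bijective b := by
      intro h
      have : (b : W → W') = (a + b : W →ₗ[F] W') ∘ B := by
        funext x; exact (hB x).symm
      rw [this]
      exact hg.comp h
    rcases fitting D ih ha hb hg hN A (Or.inl rfl) hA with h | ⟨m, hm⟩ | hAb
    · exact h
    · -- `A` nilpotent
      have hBb : Function.Bijective B := by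
        have h1 : B = 1 - A := by rw [← hAB1]; abel
        have h2 : IsUnit B := by
          rw [h1]
          exact IsNilpotent.isUnit_one_sub ⟨m, hm⟩
        exact (Module.End.isUnit_iff B).1 h2
      obtain ⟨ψ, h1, h2⟩ := quot_nil hg hAB hA hB hm hBb
      have hbb := bijB hBb
      have hψ : ∀ (e : E) x, ψ (e • x) = D.σ e • ψ x := by
        intro e x
        apply hbb.1
        rw [← h1, ha, hb, D.σσ, h1]
      exact nil_case D ih ha hb hg hN (Or.inl ⟨rfl, rfl⟩) D.σ.toRingEquiv hb hbb h1 hψ h2
    · rcases fitting D ih ha hb hg hN B (Or.inr rfl) hB with h | ⟨m, hm⟩ | hBb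
      · exact h
      · obtain ⟨ψ, h1, h2⟩ := quot_nil hg hAB.symm hB hA hm hAb
        have hab := bijA hAb
        have hψ : ∀ (e : E) x, ψ (e • x) = D.σ e • ψ x := by
          intro e x
          apply hab.1
          rw [← h1, hb, ha, h1]
        exact nil_case D ih ha hb hg hN (Or.inr ⟨rfl, rfl⟩) (RingEquiv.refl E) ha hab h1 hψ h2
      · exact both_bij D ha hb (bijA hAb) (bijB hBb)

theorem repr_semi {ι : Type*} [Fintype ι] [DecidableEq ι] (ρ : E →+* E) {c : W →ₗ[F] W'}
    (hc : ∀ (e : E) x, c (e • x) = ρ e • c x) (e : Basis ι E W) (e' : Basis ι E W') (x : W) :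
    (e'.repr (c x) : ι → E) = (e'.toMatrix (fun i => c (e i))) *ᵥ (fun i => ρ (e.repr x i)) := by
  funext i
  conv_lhs => rw [← e.sum_repr x, map_sum, map_sum]
  rw [Finsupp.finsetSum_apply]
  simp only [Matrix.mulVec, dotProduct, Basis.toMatrix_apply]
  refine Finset.sum_congr rfl fun j _ => ?_
  rw [hc, map_smul, Finsupp.smul_apply, smul_eq_mul, mul_comm]

theorem map_mulVec' {n : ℕ} (q : Matrix (Fin n) (Fin n) E) (x : Fin n → E) :
    (fun i => D.σ ((q *ᵥ x) i)) = (q.map D.σ) *ᵥ (fun i => D.σ (x i)) := by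
  funext i
  simp [mulVec, dotProduct, map_sum]

include D in
/-- **The linear algebra.** Every invertible `g` on `Eⁿ` satisfies `τ(g) = h g k` with matrices
`h, k` over the big field whose determinants have product one. -/
theorem main_lin [Finite E] [FiniteDimensional F E] [Algebra.IsSeparable F E] {n : ℕ}
    (g : (Fin n → E) →ₗ[F] (Fin n → E)) (hg : Function.Bijective g) :
    ∃ h k : Matrix (Fin n) (Fin n) E, h.det * k.det = 1 ∧
      ∀ x y, tf F (h *ᵥ (g (k *ᵥ x))) y = tf F x (g y) := by
  let a : (Fin n → E) →ₗ[F] (Fin n → E) := lpart D g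
  let b : (Fin n → E) →ₗ[F] (Fin n → E) := g - lpart D g
  have ha : ∀ (e : E) x, a (e • x) = e • a x := lpart_lin D g
  have hb : ∀ (e : E) x, b (e • x) = D.σ e • b x := apart_lin D g
  have hab : a + b = g := by simp [a, b]
  obtain ⟨k, e, e', hgood⟩ := main_ind D (Nat.card (Fin n → E)) _ _ a b ha hb
    (by rw [hab]; exact hg) le_rfl
  -- the standard basis
  have hk : k = n := by
    have := Fintype.card_congr (e.indexEquiv (Pi.basisFun E (Fin n)))
    simpa using this
  subst hk
  let f := Pi.basisFun E (Fin k)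
  let p := f.toMatrix e'
  let p' := e'.toMatrix f
  let q := e.toMatrix f
  let q' := f.toMatrix e
  have hp : p' * p = 1 := Basis.toMatrix_mul_toMatrix_flip e' f
  have hq : q * q' = 1 := Basis.toMatrix_mul_toMatrix_flip e f
  let M := e'.toMatrix (fun i => a (e i))
  let N := e'.toMatrix (fun i => b (e i))
  obtain ⟨h, k', hd, hA, hB⟩ := hgood.equiv D hp hq
  have hf : ∀ y : Fin k → E, (f.repr y : Fin k → E) = y := by
    intro y
    funext i
    simp [f]
  have hpr : ∀ y : Fin k → E, y = p *ᵥ (e'.repr y : Fin k → E) := by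
    intro y
    rw [Basis.toMatrix_mulVec_repr, hf]
  have hqr : ∀ y : Fin k → E, (e.repr y : Fin k → E) = q *ᵥ y := by
    intro y
    conv_rhs => rw [← hf y]
    rw [Basis.toMatrix_mulVec_repr]
  -- the matrices of `a` and `b` in the standard basis
  have eA : ∀ x, a x = (p * M * q) *ᵥ x := by
    intro x
    rw [hpr (a x), repr_semi (RingHom.id E) ha e e' x]
    simp only [RingHom.id_apply]
    change p *ᵥ (M *ᵥ (e.repr x : Fin k → E)) = _
    rw [hqr, mulVec_mulVec, mulVec_mulVec]
  have eB : ∀ x, b x = sl D (p * N * q.map D.σ) x := by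
    intro x
    rw [hpr (b x), repr_semi (D.σ : E →+* E) hb e e' x, sl_apply]
    change p *ᵥ (N *ᵥ (fun i => D.σ (e.repr x i))) = _
    rw [hqr, map_mulVec', mulVec_mulVec, mulVec_mulVec]
  refine ⟨h, k', hd, ?_⟩
  intro x y
  have hgx : ∀ x, g x = a x + b x := by
    intro x; rw [← hab]; rfl
  have e1 : h *ᵥ (a (k' *ᵥ x)) = (p * M * q)ᵀ *ᵥ x := by
    rw [hA, eA, mulVec_mulVec, mulVec_mulVec, ← Matrix.mul_assoc]
  have e2 : h *ᵥ (b (k' *ᵥ x)) = sl D (((p * N * q.map D.σ).map D.σ)ᵀ) x := by
    rw [hB, eB, sl_apply, map_mulVec', sl_apply, mulVec_mulVec, mulVec_mulVec, ← Matrix.mul_assoc]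
  rw [hgx, mulVec_add, e1, e2, map_add, LinearMap.add_apply, tf_sl, hgx, map_add, ← eB]
  congr 1
  rw [tf_apply, tf_apply, eA]
  congr 1
  rw [dotProduct_mulVec, ← mulVec_transpose]

end

end Pool.Agent.K1H2.MO
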