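import Mathlib
import Pool.Agent.K1H2.MO.Main
import Pool.Agent.K1H2.MO.Gel

/-! The quadratic extension of a finite field, and adjoints for the trace form. -/

set_option linter.unusedSectionVars false
set_option linter.unusedVariables false

namespace Pool.Agent.K1H2.MO

open Module Matrix

theorem exists_QD (F E : Type*) [Field F] [Finite F] [Field E] [Algebra F E]
    (h2 : finrank F E = 2) : Nonempty (QD F E) := by
  classical
  have hfd : FiniteDimensional F E := Module.finite_of_finrank_pos (by omega)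
  have hE : Finite E := Module.finite_of_finite F
  have hc : Nat.card (E ≃ₐ[F] E) = 2 := by
    rw [IsGalois.card_aut_eq_finrank, h2]
  have hnt : Nontrivial (E ≃ₐ[F] E) := by
    rw [← Finite.one_lt_card_iff_nontrivial, hc]; norm_num
  obtain ⟨σ, hσ⟩ := exists_ne (1 : E ≃ₐ[F] E)
  have hσ2 : σ ^ 2 = 1 := by
    rw [← hc]; exact pow_card_eq_one'
  have hσσ : ∀ x, σ (σ x) = x := by
    intro x
    have := AlgEquiv.congr_fun hσ2 x
    rwa [pow_two, AlgEquiv.mul_apply, AlgEquiv.one_apply] at this
  have hall : ∀ τ : E ≃ₐ[F] E, τ = 1 ∨ τ = σ := by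
    intro τ
    by_contra hcon
    push Not at hcon
    have : Fintype (E ≃ₐ[F] E) := Fintype.ofFinite _
    have h3 : ({1, σ, τ} : Finset (E ≃ₐ[F] E)).card = 3 := by
      rw [Finset.card_insert_of_notMem, Finset.card_insert_of_notMem, Finset.card_singleton]
      · simp [Ne.symm hcon.2]
      · simp [Ne.symm hσ, Ne.symm hcon.1]
    have h4 := Finset.card_le_univ ({1, σ, τ} : Finset (E ≃ₐ[F] E))
    rw [h3, ← Nat.card_eq_fintype_card, hc] at h4
    omega
  have hfix : ∀ x, σ x = x → ∃ c : F, algebraMap F E c = x := by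
    intro x hx
    have : x ∈ (⊥ : IntermediateField F E) := by
      rw [IsGalois.mem_bot_iff_fixed]
      intro τ
      rcases hall τ with h | h
      · rw [h]; rfl
      · rw [h]; exact hx
    exact IntermediateField.mem_bot.1 this
  obtain ⟨θ, hθ⟩ : ∃ θ, σ θ ≠ θ := by
    by_contra hcon
    push Not at hcon
    exact hσ (AlgEquiv.ext hcon)
  obtain ⟨t, ht⟩ := hfix (θ + σ θ) (by rw [map_add, hσσ, add_comm])
  obtain ⟨n, hn⟩ := hfix (θ * σ θ) (by rw [map_mul, hσσ, mul_comm])
  refine ⟨⟨σ, θ, t, n, hσσ, hθ, ht, hn, ?_⟩⟩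
  intro e
  have hd : θ - σ θ ≠ 0 := fun h => hθ (sub_eq_zero.1 h).symm
  have hd' : σ θ - θ ≠ 0 := fun h => hθ (sub_eq_zero.1 h)
  obtain ⟨b, hb⟩ := hfix ((e - σ e) / (θ - σ θ)) (by
    rw [map_div₀, map_sub, map_sub, hσσ, hσσ, ← neg_sub e, ← neg_sub θ, neg_div_neg_eq])
  obtain ⟨a, ha⟩ := hfix (e - (e - σ e) / (θ - σ θ) * θ) (by
    rw [map_sub, map_mul, map_div₀, map_sub, map_sub, hσσ, hσσ, ← neg_sub e (σ e),
      ← neg_sub θ (σ θ), neg_div_neg_eq]
    field_simp
    ring)
  refine ⟨a, b, ?_⟩
  rw [ha, hb]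
  ring

section adj

variable {F E : Type*} [Field F] [Field E] [Algebra F E] {n : ℕ}

/-- multiplication by a matrix over the big field, as a map over the small field -/
def lm (F : Type*) {E : Type*} [Field F] [Field E] [Algebra F E] {n : ℕ} :
    Matrix (Fin n) (Fin n) E →* Module.End F (Fin n → E) where
  toFun h := (Matrix.toLin' h).restrictScalars F
  map_one' := by ext x; simp
  map_mul' h k := by
    apply LinearMap.ext
    intro x
    simp [Matrix.toLin'_mul]

theorem lm_apply (h : Matrix (Fin n) (Fin n) E) (x : Fin n → E) : lm F h x = h *ᵥ x := by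
  simp [lm]

variable [FiniteDimensional F E] [Algebra.IsSeparable F E]

theorem exists_adj (f : Module.End F (Fin n → E)) :
    ∃ f' : Module.End F (Fin n → E), ∀ x y, tf F (f' x) y = tf F x (f y) := by
  have hfin : finrank F (Fin n → E) = finrank F (Module.Dual F (Fin n → E)) :=
    (Subspace.dual_finrank_eq (K := F) (V := Fin n → E)).symm
  let T : (Fin n → E) ≃ₗ[F] Module.Dual F (Fin n → E) :=
    LinearEquiv.ofInjectiveOfFinrankEq (tf F) tf_inj hfin
  have hT : ∀ x, T x = tf F x := fun x => rfl
  refine ⟨T.symm.toLinearMap ∘ₗ f.dualMap ∘ₗ T.toLinearMap, ?_⟩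
  intro x y
  have : tf F ((T.symm.toLinearMap ∘ₗ f.dualMap ∘ₗ T.toLinearMap) x) = f.dualMap (T x) :=
    T.apply_symm_apply _
  rw [this, LinearMap.dualMap_apply, hT]

/-- the adjoint for the trace form -/
noncomputable def adj (f : Module.End F (Fin n → E)) : Module.End F (Fin n → E) :=
  (exists_adj f).choose

theorem adj_spec (f : Module.End F (Fin n → E)) (x y : Fin n → E) :
    tf F (adj f x) y = tf F x (f y) := (exists_adj f).choose_spec x y

theorem adj_unique {f f' : Module.End F (Fin n → E)} (h : ∀ x y, tf F (f' x) y = tf F x (f y)) :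
    adj f = f' := by
  apply LinearMap.ext
  intro x
  apply tf_inj (F := F)
  apply LinearMap.ext
  intro y
  rw [adj_spec, h]

theorem adj_mul (f g : Module.End F (Fin n → E)) : adj (f * g) = adj g * adj f := by
  apply adj_unique
  intro x y
  rw [Module.End.mul_apply, adj_spec, adj_spec, Module.End.mul_apply]

theorem adj_one : adj (1 : Module.End F (Fin n → E)) = 1 := by
  apply adj_unique
  intro x y
  rfl

theorem adj_lm (h : Matrix (Fin n) (Fin n) E) : adj (lm F h) = lm F hᵀ := by
  apply adj_unique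
  intro x y
  rw [lm_apply, lm_apply, tf_apply, tf_apply]
  congr 1
  rw [dotProduct_mulVec, ← mulVec_transpose]

/-- the adjoint on the group of units -/
noncomputable def uadj (f : (Module.End F (Fin n → E))ˣ) : (Module.End F (Fin n → E))ˣ where
  val := adj f.1
  inv := adj (f⁻¹).1
  val_inv := by rw [← adj_mul, Units.inv_mul, adj_one]
  inv_val := by rw [← adj_mul, Units.mul_inv, adj_one]

theorem uadj_mul (f g : (Module.End F (Fin n → E))ˣ) : uadj (f * g) = uadj g * uadj f :=
  Units.ext (adj_mul f.1 g.1)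

end adj

/-- The transpose on the general linear group. -/
def trp {E : Type*} [Field E] {n : ℕ} (h : GL (Fin n) E) : GL (Fin n) E where
  val := h.1ᵀ
  inv := (h⁻¹).1ᵀ
  val_inv := by rw [← transpose_mul, Units.inv_mul, transpose_one]
  inv_val := by rw [← transpose_mul, Units.mul_inv, transpose_one]

theorem trp_inj {E : Type*} [Field E] {n : ℕ} :
    Function.Injective (trp : GL (Fin n) E → GL (Fin n) E) := by
  intro h k e
  apply Units.ext
  have : h.1ᵀ = k.1ᵀ := congrArg Units.val e
  exact transpose_injective this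

theorem det_trp {E : Type*} [Field E] {n : ℕ} (h : GL (Fin n) E) :
    Matrix.GeneralLinearGroup.det (trp h) = Matrix.GeneralLinearGroup.det h :=
  Units.ext (det_transpose h.1)

/-- **Multiplicity one**, for a group isomorphic with the group of units of the endomorphisms. -/
theorem mult_one_gen {F E : Type*} [Field F] [Finite F] [Field E] [Algebra F E]
    (h2 : finrank F E = 2) {n : ℕ} {G V : Type*} [Group G]
    (φ : G ≃* (Module.End F (Fin n → E))ˣ) (i : GL (Fin n) E →* G)
    (hi : ∀ h : GL (Fin n) E, (φ (i h)).1 = lm F h.1)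
    [AddCommGroup V] [Module ℂ V] [FiniteDimensional ℂ V] (π : Representation ℂ G V)
    (hπ : π.IsIrreducible) (χ : Eˣ →* ℂˣ) :
    finrank ℂ (Eqv π i (χ.comp Matrix.GeneralLinearGroup.det)) ≤ 1 := by
  classical
  obtain ⟨D⟩ := exists_QD F E h2
  have hfd : FiniteDimensional F E := Module.finite_of_finrank_pos (by omega)
  have hE : Finite E := Module.finite_of_finite F
  have hHf : Finite (GL (Fin n) E) := by
    have : Finite (Matrix (Fin n) (Fin n) E) := inferInstanceAs (Finite (Fin n → Fin n → E))
    infer_instance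
  have := Fintype.ofFinite (GL (Fin n) E)
  refine trick (τ := fun x => φ.symm (uadj (φ x))) (ρ := trp) hπ ?_ trp_inj ?_ ?_ ?_
  · intro x y
    rw [map_mul, uadj_mul, map_mul]
  · intro h
    apply φ.injective
    rw [MulEquiv.apply_symm_apply]
    apply Units.ext
    rw [hi]
    change lm F (h.1ᵀ) = adj (φ (i h)).1
    rw [hi, adj_lm]
  · intro h
    rw [MonoidHom.comp_apply, MonoidHom.comp_apply, det_trp]
  · intro g
    have hg : Function.Bijective ((φ g).1 : (Fin n → E) → (Fin n → E)) :=
      (Module.End.isUnit_iff _).1 (φ g).isUnit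
    obtain ⟨h, k, hd, hh⟩ := main_lin D (φ g).1 hg
    have uh : IsUnit h.det := IsUnit.of_mul_eq_one _ hd
    have uk : IsUnit k.det := IsUnit.of_mul_eq_one _ ((mul_comm _ _).trans hd)
    let h' : GL (Fin n) E := Matrix.nonsingInvUnit h uh
    let k' : GL (Fin n) E := Matrix.nonsingInvUnit k uk
    refine ⟨h', k', ?_, ?_⟩
    · apply φ.injective
      rw [MulEquiv.apply_symm_apply]
      apply Units.ext
      rw [map_mul, map_mul, Units.val_mul, Units.val_mul, hi, hi]
      apply adj_unique
      intro x y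
      rw [← hh x y]
      rfl
    · rw [MonoidHom.comp_apply, MonoidHom.comp_apply, ← map_mul]
      have : Matrix.GeneralLinearGroup.det h' * Matrix.GeneralLinearGroup.det k' = 1 := by
        apply Units.ext
        exact hd
      rw [this, map_one]

end Pool.Agent.K1H2.MO
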